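import Mathlib

/-!
# Leaves for the equivalence theorem in rank three (statements, proofs in the docstrings)
-/

set_option autoImplicit false

namespace Pool.Agent.K9h95.RE

/-- LEAF VAL (Val.lean, `theorem val : S_VAL`). Valuations at `q`: `k = q^κ k'`, `y = q^(2j+1) g`.
Proof: `X = 4 k² ε - β²` satisfies `y X = k² c²`, so that `v(X)` is odd if `X ≠ 0`: write `X = q^e X'`,
`c = q^γ c'` with `X'`, `c'` prime to `q`, then `2j+1+e = 2κ+2γ` (if `q^a u = q^b w` and `u`, `w` are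
prime to `q` then `a = b`). Put `τ = 0` for odd `q`, `τ = 2` for `q = 2`, so that `v(4 k² ε) = 2κ+τ`. If
`e < 2κ+τ` then `β² = 4 k² ε - X = q^e (unit)`, and `e = v(β²)` would be even. So `e ≥ 2κ+τ`, and
`e ≥ 2κ+τ+1` as `e` is odd. -/
def S_VAL : Prop :=
  ∀ (q : ℕ), q.Prime → ∀ (κ j : ℕ) (k' g y k c β ε : ℤ), ¬ (q : ℤ) ∣ k' → ¬ (q : ℤ) ∣ g →
    ¬ (q : ℤ) ∣ ε → k = q ^ κ * k' → y = q ^ (2 * j + 1) * g →
    4 * k ^ 2 * y * ε = y * β ^ 2 + k ^ 2 * c ^ 2 →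
    (q : ℤ) ^ (2 * κ + 1) ∣ 4 * k ^ 2 * ε - β ^ 2 ∧
      (q = 2 → (q : ℤ) ^ (2 * κ + 3) ∣ 4 * k ^ 2 * ε - β ^ 2)

/-- LEAF PTWO (Ptwo.lean, `theorem ptwo : S_PTWO`). `q = 2` or `q = 2 mod 3`, `k = q^κ k'`,
`n = β + k W`, `n' = -β + k W`, `n n' = - 3 k²` modulo `q^(2κ+1)`, and modulo `q^(2κ+3)` if `q = 2`;
`W` is odd if `q = 2`. Proof: `v(n) + v(n') = 2κ` (as `v(3 k²) = 2κ`, `q ≠ 3`). `n + n' = 2 k W` is divisible
by `q^κ`, and for `q = 2` its valuation is exactly `κ + 1`. If `v(n) ≠ v(n')` then the smaller one is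
`< κ` but equal to `v(n + n') ≥ κ`: contradiction. So `n = q^κ m`, `n' = q^κ m'` with `m`, `m'` prime to
`q`, and `m m' = -3 k'^2` modulo `q` (modulo `8` if `q = 2`). Let `i m = 1` modulo `q^L`, `ζ = m' i`
(take `L ≥ 3`). Then `q^L ∣ m' - ζ m`, and `ζ = m' m i² = -3 (k' i)²` modulo `q` (modulo `8`), so that
`ζ = 5 mod 8` for `q = 2` (squares of odd numbers are `1 mod 8`), and for odd `q` the Jacobi symbol is
`(-3 / q) = (q / 3) = -1` (quadratic reciprocity, `q = 2 mod 3`). -/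
def S_PTWO : Prop :=
  ∀ (q : ℕ), q.Prime → q % 3 = 2 → ∀ (κ L : ℕ) (k' k β W : ℤ), 3 ≤ L → ¬ (q : ℤ) ∣ k' →
    k = q ^ κ * k' → (q = 2 → W % 2 = 1) →
    (q : ℤ) ^ (2 * κ + 1) ∣ (β + k * W) * (-β + k * W) + 3 * k ^ 2 →
    (q = 2 → (q : ℤ) ^ (2 * κ + 3) ∣ (β + k * W) * (-β + k * W) + 3 * k ^ 2) →
    ¬ (q : ℤ) ^ (κ + 1) ∣ β + k * W ∧
    ∃ ζ : ℤ, (q : ℤ) ^ L ∣ (-β + k * W) - ζ * (β + k * W) ∧
      (q = 2 → ζ % 8 = 5) ∧ (q ≠ 2 → jacobiSym ζ q = -1)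

/-- LEAF PONE (Pone.lean, `theorem pone : S_PONE`). `q ≥ 5` prime, `β² = 4 ε k²` modulo `q`, `k`, `ε`
prime to `q`. Two solutions of `4 ε x² - W² = 3` modulo `q^L` such that the quotient `ζ` of the
numbers `β x + k W` is a nonresidue. Proof: by Hensel (induction on `L`) there is `σ` with
`q^L ∣ σ² - 4 ε` and `σ = β / k` modulo `q` (first `s0 = β * (inverse of k)`; `s0² = 4 ε` modulo `q`). For a
unit `τ` with the inverse `τ'` modulo `q^L`, `h` the inverse of `2` and `i` the inverse of `2 σ` put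
`W = (τ - 3 τ') h`, `x = (τ + 3 τ') i`. Then `4 ε x² - W² = (σ x - W)(σ x + W) = 3 τ' τ = 3` modulo
`q^L` and `β x + k W = k (σ x + W) = k τ` modulo `q`. Take `τ = 1` and `τ = r`, a nonresidue modulo
`q` (exists since `q` is odd: `FiniteField.exists_nonsquare`), and `ζ = (second) * (inverse of the first)`. -/
def S_PONE : Prop :=
  ∀ (q : ℕ), q.Prime → q ≠ 2 → q ≠ 3 → ∀ (L : ℕ) (k β ε : ℤ), 1 ≤ L → ¬ (q : ℤ) ∣ k →
    ¬ (q : ℤ) ∣ ε → (q : ℤ) ∣ β ^ 2 - 4 * ε * k ^ 2 →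
    ∃ x W x' W' ζ : ℤ, (q : ℤ) ^ L ∣ 4 * ε * x ^ 2 - W ^ 2 - 3 ∧
      (q : ℤ) ^ L ∣ 4 * ε * x' ^ 2 - W' ^ 2 - 3 ∧ ¬ (q : ℤ) ∣ β * x + k * W ∧
      (q : ℤ) ^ L ∣ (β * x' + k * W') - ζ * (β * x + k * W) ∧ jacobiSym ζ q = -1

/-- LEAF ZED (Zed.lean, `theorem zed : S_ZED`). A number `z` with the Jacobi symbol `(a / z) = -1`, where
`a = q^(2j+1) a1`, `q` prime to `a1` and `m`, `z = ζ` modulo `q^L`, `z = 1` modulo `m`. Proof: for odd `q`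
take `z = ζ` modulo `q^L` and `z = 1` modulo `8 a1 m` (Chinese remainder theorem, positive). Then
`(q / z) = (z / q) = (ζ / q) = -1` as `z = 1 mod 4`, and `(a1 / z) = (a1 / 1) = 1` by `jacobiSym.mod_right'`
(`z = 1` modulo `4 a1`). For `q = 2` (`a1` odd, `m` odd): `z = ζ` modulo `2^L`, `z = 1` modulo `a1 m`;
`(2 / z) = -1` as `z = 5 mod 8` (`jacobiSym.at_two`), `(a1 / z) = (z / a1) = (1 / a1) = 1`. -/
def S_ZED : Prop :=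
  ∀ (q : ℕ), q.Prime → ∀ (j L a1 m : ℕ) (ζ : ℤ), 3 ≤ L → ¬ q ∣ a1 → ¬ q ∣ m →
    (q = 2 → ζ % 8 = 5) → (q ≠ 2 → jacobiSym ζ q = -1) →
    ∃ z : ℕ, z % 2 = 1 ∧ (q : ℤ) ^ L ∣ (z : ℤ) - ζ ∧ (m : ℤ) ∣ (z : ℤ) - 1 ∧
      jacobiSym ((q ^ (2 * j + 1) * a1 : ℕ) : ℤ) z = -1

end Pool.Agent.K9h95.RE
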