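import Pool.Agent.K9h38.CF.Iso
import Pool.Agent.K9h95.RE.Stm

/-!
# Assembly: from a prime number with the right symbol to a value `j² + j + 1`
-/

set_option autoImplicit false

namespace Pool.Agent.K9h95.RE

open Pool.Agent.N801.CF Pool.Agent.K9h38.CF Finset

variable {M : Type*} [AddCommGroup M] (Q : QF M)

theorem b_self (y : M) : Q.b y y = 2 * Q.f y := by
  have h1 := Q.f_add y y
  have h2 := Q.f_smul 2 y
  rw [two_smul] at h2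
  linarith

theorem asm {v1 y : M} {k : ℤ} (h1 : Q.f v1 = k ^ 2) (h12 : Q.b v1 y = 0)
    (hid : ∀ u, 4 * k ^ 2 * Q.f y * Q.f u = Q.f y * Q.b v1 u ^ 2 + k ^ 2 * Q.b y u ^ 2)
    {P g : ℤ} {ℓ : ℕ} (hℓ : ℓ.Prime) (hℓ2 : ¬ (ℓ : ℤ) ∣ 2 * k) (hℓP : ¬ (ℓ : ℤ) ∣ P)
    (hℓy : ¬ (ℓ : ℤ) ∣ Q.f y) (hgP : g ∣ P) {w : ℤ} (hw : (ℓ : ℤ) ∣ w ^ 2 - 3 * Q.f y)
    {x : M} {r : ℤ} (hF : P ∣ r ^ 2 - r + 1 - Q.f x)
    (hn : Q.b v1 x + k * (2 * r - 1) = g * ℓ) :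
    ∃ (v : M) (j : ℤ), Q.f v = j ^ 2 + j + 1 := by
  have hℓp := Nat.prime_iff_prime_int.1 hℓ
  have hℓ2' : ¬ (ℓ : ℤ) ∣ 2 := fun h => hℓ2 (h.mul_right _)
  have hℓk : ¬ (ℓ : ℤ) ∣ k := fun h => hℓ2 (h.mul_left _)
  have hc : IsCoprime (2 * P * Q.f y) (ℓ : ℤ) := by
    refine ((Prime.coprime_iff_not_dvd hℓp).2 fun h => ?_).symm
    rcases hℓp.dvd_or_dvd h with h | h
    · rcases hℓp.dvd_or_dvd h with h | h
      · exact hℓ2' h
      · exact hℓP h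
    · exact hℓy h
  obtain ⟨c, d, hcd⟩ := hc
  set s : ℤ := c * (w - Q.b y x) with hs
  have hs' : Q.b y x + 2 * P * s * Q.f y = w - ℓ * (d * (w - Q.b y x)) := by
    rw [hs]
    linear_combination (w - Q.b y x) * hcd
  set u : M := x + (P * s) • y with hu
  have hbu : Q.b v1 u = Q.b v1 x := by
    rw [hu, Q.b_add', Q.b_smul', h12]
    ring
  have hby : Q.b y u = w - ℓ * (d * (w - Q.b y x)) := by
    rw [hu, Q.b_add', Q.b_smul', b_self, ← hs']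
    ring
  have hfu : Q.f u = Q.f x + P * s * Q.b x y + P ^ 2 * s ^ 2 * Q.f y := by
    rw [hu, Q.f_add, Q.f_smul, Q.b_smul']
    ring
  have hFP : P ∣ r ^ 2 - r + 1 - Q.f u := by
    have : r ^ 2 - r + 1 - Q.f u = (r ^ 2 - r + 1 - Q.f x) +
        P * (-(s * Q.b x y) - P * s ^ 2 * Q.f y) := by
      rw [hfu]
      ring
    rw [this]
    exact dvd_add hF (dvd_mul_right _ _)
  have hFℓ : (ℓ : ℤ) ∣ r ^ 2 - r + 1 - Q.f u := by
    have h3 : (ℓ : ℤ) ∣ 4 * k ^ 2 * Q.f y * (r ^ 2 - r + 1 - Q.f u) := by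
      obtain ⟨e, he⟩ := hw
      have h4 : Q.b v1 u = g * ℓ - k * (2 * r - 1) := by rw [hbu, ← hn]; ring
      have h5 := hid u
      rw [h4, hby] at h5
      refine ⟨-(Q.f y * (g ^ 2 * ℓ - 2 * g * k * (2 * r - 1))) + k ^ 2 * (-e +
        2 * w * (d * (w - Q.b y x)) - ℓ * (d * (w - Q.b y x)) ^ 2), ?_⟩
      linear_combination -h5 - k ^ 2 * he
    rcases hℓp.dvd_or_dvd h3 with h | h
    · exfalso
      rcases hℓp.dvd_or_dvd h with h | h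
      · rcases hℓp.dvd_or_dvd h with h | h
        · have : (ℓ : ℤ) ∣ 2 ^ 2 := by norm_num; exact h
          exact hℓ2' (hℓp.dvd_of_dvd_pow this)
        · exact hℓk (hℓp.dvd_of_dvd_pow h)
      · exact hℓy h
    · exact h
  have hcop : IsCoprime (ℓ : ℤ) g :=
    (Prime.coprime_iff_not_dvd hℓp).2 fun h => hℓP (h.trans hgP)
  obtain ⟨X, hX⟩ : g * ℓ ∣ r ^ 2 - r + 1 - Q.f u :=
    hcop.symm.mul_dvd (hgP.trans hFP) hFℓ
  refine ⟨X • v1 + u, k * X - r, ?_⟩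
  rw [Q.f_add, Q.f_smul, Q.b_smul, h1, hbu]
  linear_combination X * hn - hX

theorem exw {ℓ : ℕ} (hℓ : ℓ.Prime) {a : ℤ} (h : jacobiSym a ℓ = 1) :
    ∃ w : ℤ, (ℓ : ℤ) ∣ w ^ 2 - a := by
  have : Fact ℓ.Prime := ⟨hℓ⟩
  rw [← jacobiSym.legendreSym.to_jacobiSym] at h
  have ha : (a : ZMod ℓ) ≠ 0 := by
    intro h0
    rw [(legendreSym.eq_zero_iff ℓ a).2 h0] at h
    norm_num at h
  obtain ⟨c, hc⟩ := (legendreSym.eq_one_iff ℓ ha).1 h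
  obtain ⟨w, hw⟩ := ZMod.intCast_surjective c
  refine ⟨w, ?_⟩
  rw [← ZMod.intCast_zmod_eq_zero_iff_dvd]
  push_cast
  rw [hw, hc]
  ring

/-- the two attempts -/
theorem fin2 {v1 y : M} {k : ℤ} (hk : k ≠ 0) (h1 : Q.f v1 = k ^ 2) (h12 : Q.b v1 y = 0)
    (hy : 0 < Q.f y)
    (hid : ∀ u, 4 * k ^ 2 * Q.f y * Q.f u = Q.f y * Q.b v1 u ^ 2 + k ^ 2 * Q.b y u ^ 2)
    {P : ℤ} (hP0 : P ≠ 0) {x1 : M} {r1 : ℤ} (hF : P ∣ r1 ^ 2 - r1 + 1 - Q.f x1)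
    (hgP : ∀ g : ℤ, g ∣ Q.b v1 x1 + k * (2 * r1 - 1) → g ∣ 2 * k * P → g ∣ P)
    (hcase : IsSquare (3 * Q.f y) ∨ ∃ (z : ℕ) (x2 : M) (r2 : ℤ), z % 2 = 1 ∧
      jacobiSym (3 * Q.f y) z = -1 ∧ IsCoprime (z : ℤ) (2 * k * P) ∧
      P ∣ r2 ^ 2 - r2 + 1 - Q.f x2 ∧
      2 * k * P ∣ Q.b v1 x2 + k * (2 * r2 - 1) - z * (Q.b v1 x1 + k * (2 * r1 - 1))) :
    ∃ (v : M) (j : ℤ), Q.f v = j ^ 2 + j + 1 := by
  have h2k : 2 * k ≠ 0 := mul_ne_zero two_ne_zero hk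
  have hsm : ∀ ℓ : ℕ, 3 * (Q.f y).natAbs + P.natAbs + (2 * k).natAbs + 2 < ℓ →
      (¬ (ℓ : ℤ) ∣ 2 * k) ∧ (¬ (ℓ : ℤ) ∣ P) ∧ (¬ (ℓ : ℤ) ∣ Q.f y) ∧ ¬ (ℓ : ℤ) ∣ 3 := by
    intro ℓ hℓ
    have hsmall : ∀ z : ℤ, z ≠ 0 → z.natAbs < ℓ → ¬ (ℓ : ℤ) ∣ z := by
      intro z hz hlt hd
      have h1 := Nat.le_of_dvd (Int.natAbs_pos.2 hz) (Int.natCast_dvd.1 hd)
      omega
    refine ⟨hsmall _ h2k (by omega), hsmall _ hP0 (by omega), hsmall _ hy.ne' (by omega),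
      hsmall 3 (by norm_num) ?_⟩
    have : 0 < (Q.f y).natAbs := Int.natAbs_pos.2 hy.ne'
    show 3 < ℓ
    omega
  obtain ⟨g, t, ℓ, hg0, hgn, hgD, hℓ, hℓB, hval⟩ := dir_prime
    (Q.b v1 x1 + k * (2 * r1 - 1)) (2 * k * P) (mul_ne_zero h2k hP0)
    (3 * (Q.f y).natAbs + P.natAbs + (2 * k).natAbs + 2)
  obtain ⟨l1, l2, l3, l4⟩ := hsm ℓ hℓB
  have hgP' := hgP g hgn hgD
  have hℓp := Nat.prime_iff_prime_int.1 hℓ
  have hshift : ∀ (x : M) (r t : ℤ), P ∣ r ^ 2 - r + 1 - Q.f x →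
      P ∣ (r + P * t) ^ 2 - (r + P * t) + 1 - Q.f x := by
    intro x r t h
    have : (r + P * t) ^ 2 - (r + P * t) + 1 - Q.f x = (r ^ 2 - r + 1 - Q.f x) +
        P * (t * (2 * r - 1) + P * t ^ 2) := by ring
    rw [this]
    exact dvd_add h (dvd_mul_right _ _)
  have good : jacobiSym (3 * Q.f y) ℓ = 1 → ∃ (v : M) (j : ℤ), Q.f v = j ^ 2 + j + 1 := by
    intro h
    obtain ⟨w, hw⟩ := exw hℓ h
    exact asm Q h1 h12 hid hℓ l1 l2 l3 hgP' hw (hshift x1 r1 t hF) (by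
      rw [← hval]
      ring)
  have hnz : jacobiSym (3 * Q.f y) ℓ ≠ 0 := by
    have : NeZero ℓ := ⟨hℓ.ne_zero⟩
    rw [Ne, jacobiSym.eq_zero_iff_not_coprime, not_not]
    refine Int.isCoprime_iff_gcd_eq_one.1 ((Prime.coprime_iff_not_dvd hℓp).2 fun h => ?_).symm
    rcases hℓp.dvd_or_dvd h with h | h
    · exact l4 h
    · exact l3 h
  rcases hcase with ⟨c, hc⟩ | ⟨z, x2, r2, hz2, hz1, hzc, hF2, hn2⟩
  · apply good
    rw [hc, jacobiSym.mul_left]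
    rcases jacobiSym.trichotomy c ℓ with h | h | h
    · rw [hc, jacobiSym.mul_left, h] at hnz
      norm_num at hnz
    · rw [h]; norm_num
    · rw [h]; norm_num
  rcases jacobiSym.trichotomy (3 * Q.f y) ℓ with h | h | h
  · exact absurd h hnz
  · exact good h
  -- the second attempt
  set a : ℤ := 3 * Q.f y with ha
  have ha0 : a ≠ 0 := by rw [ha]; omega
  set D : ℤ := 4 * a * (2 * k * P) with hD
  have hD0 : D ≠ 0 := mul_ne_zero (mul_ne_zero (by norm_num) ha0) (mul_ne_zero h2k hP0)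
  have : NeZero D.natAbs := ⟨Int.natAbs_ne_zero.2 hD0⟩
  have hza : IsCoprime (z : ℤ) a := by
    have : NeZero z := ⟨by omega⟩
    have h3 : jacobiSym a z ≠ 0 := by rw [hz1]; norm_num
    rw [Ne, jacobiSym.eq_zero_iff_not_coprime, not_not] at h3
    exact (Int.isCoprime_iff_gcd_eq_one.2 h3).symm
  have hz4 : IsCoprime (z : ℤ) 4 := by
    have h3 : IsCoprime (z : ℤ) 2 := by
      refine ((Prime.coprime_iff_not_dvd Int.prime_two).2 fun h => ?_).symm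
      omega
    have := h3.mul_right h3
    norm_num at this
    exact this
  have hlD : IsCoprime (ℓ : ℤ) D := by
    refine (Prime.coprime_iff_not_dvd hℓp).2 fun h => ?_
    rcases hℓp.dvd_or_dvd h with h | h
    · rcases hℓp.dvd_or_dvd h with h | h
      · have h4 : (ℓ : ℤ) ∣ 2 ^ 2 := by norm_num; exact h
        exact l1 ((hℓp.dvd_of_dvd_pow h4).mul_right _)
      · rcases hℓp.dvd_or_dvd h with h | h
        · exact l4 h
        · exact l3 h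
    · rcases hℓp.dvd_or_dvd h with h | h
      · exact l1 h
      · exact l2 h
  have hcop : IsCoprime ((ℓ : ℤ) * z) D :=
    hlD.mul_left ((hz4.mul_right hza).mul_right hzc)
  have hunit : IsUnit (((ℓ : ℤ) * z : ℤ) : ZMod D.natAbs) := by
    have h3 : IsCoprime ((ℓ : ℤ) * z) ((D.natAbs : ℕ) : ℤ) :=
      IsCoprime.of_isCoprime_of_dvd_right hcop (Int.natAbs_dvd.2 dvd_rfl)
    exact (ZMod.coe_int_isUnit_iff_isCoprime _ _).2 h3.symm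
  obtain ⟨ℓ', hℓgt, hℓ', hℓs⟩ := Nat.forall_exists_prime_gt_and_eq_mod hunit
    (3 * (Q.f y).natAbs + P.natAbs + (2 * k).natAbs + 2)
  obtain ⟨m1, m2, m3, m4⟩ := hsm ℓ' hℓgt
  obtain ⟨e, he⟩ : D ∣ (ℓ' : ℤ) - ℓ * z := by
    refine (Int.dvd_natAbs.2 dvd_rfl : D ∣ ((D.natAbs : ℕ) : ℤ)).trans ?_
    rw [← ZMod.intCast_zmod_eq_zero_iff_dvd]
    push_cast
    push_cast at hℓs
    rw [hℓs, sub_self]
  have hℓ'2 : Odd ℓ' := hℓ'.odd_of_ne_two fun h => m1 (by rw [h]; exact dvd_mul_right _ _)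
  have hℓ2 : Odd ℓ := hℓ.odd_of_ne_two fun h => l1 (by rw [h]; exact dvd_mul_right _ _)
  have hJ : jacobiSym a ℓ' = 1 := by
    have h3 : jacobiSym a ℓ' = jacobiSym a (ℓ * z) := by
      rw [jacobiSym.mod_right a hℓ'2, jacobiSym.mod_right a (hℓ2.mul (Nat.odd_iff.2 hz2))]
      congr 1
      have h4 : ((ℓ' : ℤ)) % ((4 * a.natAbs : ℕ) : ℤ) = ((ℓ * z : ℕ) : ℤ) %
          ((4 * a.natAbs : ℕ) : ℤ) := by
        refine (Int.emod_eq_emod_iff_emod_sub_eq_zero).2 (Int.emod_eq_zero_of_dvd ?_)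
        push_cast
        rw [he]
        refine Dvd.dvd.mul_right ?_ _
        rw [hD]
        refine Dvd.dvd.mul_right ?_ _
        exact mul_dvd_mul_left _ ((abs_dvd _ _).2 dvd_rfl)
      exact_mod_cast h4
    have : NeZero z := ⟨by omega⟩
    have : NeZero ℓ := ⟨hℓ.ne_zero⟩
    rw [h3, jacobiSym.mul_right, h, hz1]
    norm_num
  obtain ⟨w, hw⟩ := exw hℓ' hJ
  obtain ⟨e2, he2⟩ := hn2
  refine asm Q h1 h12 hid hℓ' m1 m2 m3 hgP' hw (hshift x2 r2 (t * z - e2 + g * (4 * a) * e) hF2) ?_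
  have : (ℓ' : ℤ) = ℓ * z + D * e := by linarith
  rw [this, hD]
  linear_combination he2 + z * hval

end Pool.Agent.K9h95.RE
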