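import Pool.Agent.K9h95.RE.Loc

/-!
# Values `j² + j + 1` of a binary form which represents a square
-/

set_option autoImplicit false

namespace Pool.Agent.K9h95.RE

open Pool.Agent.N801.CF Pool.Agent.K9h38.CF Finset

variable {M : Type*} [AddCommGroup M] (Q : QF M)

theorem glob {v1 : M} {k : ℤ} (S : Finset ℕ) (hSp : ∀ p ∈ S, p.Prime) (E : ℕ) (U : ℕ → M)
    (R : ℕ → ℤ) (hF : ∀ p ∈ S, (p : ℤ) ^ E ∣ R p ^ 2 - R p + 1 - Q.f (U p)) :
    ∃ (x : M) (r : ℤ), (∀ p ∈ S, (p : ℤ) ^ E ∣ r ^ 2 - r + 1 - Q.f x) ∧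
      ∀ p ∈ S, (p : ℤ) ^ E ∣ (Q.b v1 x + k * (2 * r - 1)) -
        (Q.b v1 (U p) + k * (2 * R p - 1)) := by
  obtain ⟨x, hx⟩ := crt S hSp E U
  obtain ⟨r, hr⟩ := crt S hSp E R
  refine ⟨x, r, fun p hp => ?_, fun p hp => ?_⟩
  · obtain ⟨z, hz⟩ := hx p hp
    obtain ⟨w, hw⟩ := hr p hp
    obtain ⟨y, hy⟩ := hF p hp
    rw [smul_eq_mul] at hw
    refine ⟨y + w * (2 * R p - 1) + (p : ℤ) ^ E * w ^ 2 - Q.b (U p) z - (p : ℤ) ^ E * Q.f z, ?_⟩
    rw [hw, hz, Q.f_add, Q.f_smul, Q.b_smul']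
    linear_combination hy
  · obtain ⟨z, hz⟩ := hx p hp
    obtain ⟨w, hw⟩ := hr p hp
    rw [smul_eq_mul] at hw
    refine ⟨Q.b v1 z + 2 * k * w, ?_⟩
    rw [hw, hz, Q.b_add', Q.b_smul']
    ring

theorem divS (S : Finset ℕ) (hSp : ∀ p ∈ S, p.Prime) (e : ℕ) (X : ℤ)
    (h : ∀ p ∈ S, (p : ℤ) ^ e ∣ X) : (∏ p ∈ S, (p : ℤ) ^ e) ∣ X := by
  obtain ⟨y, hy⟩ := div_prod S hSp (fun _ => e) X (fun p hp => by
    obtain ⟨y, hy⟩ := h p hp
    exact ⟨y, by rw [smul_eq_mul]; exact hy⟩)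
  rw [smul_eq_mul] at hy
  exact ⟨y, hy⟩

theorem two_k_dvd {k : ℤ} (h2k : 2 * k ≠ 0) {K : ℕ}
    (hK : ∀ p ∈ (2 * k).natAbs.primeFactors, ¬ (p : ℤ) ^ K ∣ 2 * k) :
    2 * k ∣ ∏ p ∈ (2 * k).natAbs.primeFactors, (p : ℤ) ^ K := by
  have h0 : (2 * k).natAbs ≠ 0 := Int.natAbs_ne_zero.2 h2k
  have h1 : (2 * k).natAbs ∣ ∏ p ∈ (2 * k).natAbs.primeFactors, p ^ K := by
    have h3 : ∏ p ∈ (2 * k).natAbs.primeFactors, p ^ ((2 * k).natAbs.factorization p) =
        (2 * k).natAbs := by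
      have := Nat.prod_factorization_pow_eq_self h0
      rwa [Finsupp.prod, Nat.support_factorization] at this
    refine dvd_trans (dvd_of_eq h3.symm) (Finset.prod_dvd_prod_of_dvd _ _ fun p hp => ?_)
    refine pow_dvd_pow _ ?_
    by_contra hcon
    apply hK p hp
    have h4 : p ^ K ∣ (2 * k).natAbs :=
      (pow_dvd_pow _ (by omega)).trans (Nat.ordProj_dvd _ p)
    have := Int.natCast_dvd.2 h4
    push_cast at this
    exact this
  have h2 := Int.natCast_dvd_natCast.2 h1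
  push_cast at h2
  exact (dvd_abs _ _).2 dvd_rfl |>.trans h2

theorem core3 (hval : S_VAL) (hptwo : S_PTWO) (hpone : S_PONE) (hzed : S_ZED) {v1 y : M} {k : ℤ}
    (hk : k ≠ 0) (h1 : Q.f v1 = k ^ 2) (h12 : Q.b v1 y = 0) (hy : 0 < Q.f y)
    (hid : ∀ u, 4 * k ^ 2 * Q.f y * Q.f u = Q.f y * Q.b v1 u ^ 2 + k ^ 2 * Q.b y u ^ 2)
    (hloc : ∀ p : ℕ, p.Prime → p % 3 ≠ 1 → (p : ℤ) ∣ 2 * k → ∃ v, Good p (Q.f v))
    (hcond : IsSquare (3 * Q.f y) ∨ ∃ q j a1 : ℕ, q.Prime ∧ ¬ q ∣ a1 ∧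
      3 * Q.f y = ((q ^ (2 * j + 1) * a1 : ℕ) : ℤ) ∧
      (q % 12 ≠ 1 ∨ ¬ (q : ℤ) ∣ k ∨ ∃ V, ¬ (q : ℤ) ∣ Q.f V)) :
    ∃ (v : M) (j : ℤ), Q.f v = j ^ 2 + j + 1 := by
  classical
  have h2k : 2 * k ≠ 0 := mul_ne_zero two_ne_zero hk
  set S : Finset ℕ := (2 * k).natAbs.primeFactors with hSdef
  have hSp : ∀ p ∈ S, p.Prime := fun p hp => Nat.prime_of_mem_primeFactors hp
  have hSd : ∀ p ∈ S, (p : ℤ) ∣ 2 * k := fun p hp =>
    Int.natCast_dvd.2 (Nat.dvd_of_mem_primeFactors hp)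
  have hS' : ∀ p : ℕ, p.Prime → (p : ℤ) ∣ 2 * k → p ∈ S := fun p hp h =>
    Nat.mem_primeFactors.2 ⟨hp, Int.natCast_dvd.1 h, Int.natAbs_ne_zero.2 h2k⟩
  obtain ⟨K, hK⟩ : ∃ K : ℕ, ∀ p ∈ S, ¬ (p : ℤ) ^ K ∣ 2 * k := by
    refine ⟨(2 * k).natAbs, fun p hp hd => ?_⟩
    have h1 := Int.natAbs_dvd_natAbs.2 hd
    rw [Int.natAbs_pow, Int.natAbs_natCast] at h1
    have h2 := Nat.le_of_dvd (Int.natAbs_pos.2 h2k) h1
    have h4 : (2 * k).natAbs < p ^ (2 * k).natAbs := Nat.lt_pow_self (hSp p hp).one_lt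
    omega
  set E := 2 * K + 3 with hE
  set P : ℤ := ∏ p ∈ S, (p : ℤ) ^ (K + 1) with hP
  have hP0 : P ≠ 0 := prod_ne_zero_iff.2 fun p hp => pow_ne_zero _ (by
    exact_mod_cast (hSp p hp).ne_zero)
  have hPS : ∀ p ∈ S, (p : ℤ) ^ (K + 1) ∣ P := fun p hp => dvd_prod_of_mem _ hp
  have hT : 2 * k * P ∣ ∏ p ∈ S, (p : ℤ) ^ (2 * K + 1) := by
    have e : ∏ p ∈ S, (p : ℤ) ^ (2 * K + 1) = (∏ p ∈ S, (p : ℤ) ^ K) * P := by
      rw [hP, ← prod_mul_distrib]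
      refine prod_congr rfl fun p _ => ?_
      rw [← pow_add]
      congr 1
      ring
    rw [e]
    exact mul_dvd_mul_right (two_k_dvd h2k hK) _
  -- divisibility
  have hdivT : ∀ X : ℤ, (∀ p ∈ S, (p : ℤ) ^ E ∣ X) → 2 * k * P ∣ X := fun X h =>
    hT.trans (divS S hSp _ X fun p hp => (pow_dvd_pow _ (by omega)).trans (h p hp))
  have hdivP : ∀ X : ℤ, (∀ p ∈ S, (p : ℤ) ^ E ∣ X) → P ∣ X := fun X h =>
    divS S hSp _ X fun p hp => (pow_dvd_pow _ (by omega)).trans (h p hp)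
  have hcopz : ∀ z : ℤ, (∀ p ∈ S, ¬ (p : ℤ) ∣ z) → IsCoprime z (2 * k * P) := by
    intro z hz
    refine IsCoprime.of_isCoprime_of_dvd_right (IsCoprime.prod_right fun p hp => ?_) hT
    exact ((Prime.coprime_iff_not_dvd (Nat.prime_iff_prime_int.1 (hSp p hp))).2
      (hz p hp)).symm.pow_right
  -- the numbers `g`
  have hgP : ∀ n0 : ℤ, (∀ p ∈ S, ¬ (p : ℤ) ^ (K + 1) ∣ n0) →
      ∀ g : ℤ, g ∣ n0 → g ∣ 2 * k * P → g ∣ P := by
    intro n0 hn0S g hgn hgD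
    rw [← Int.natAbs_dvd_natAbs, Nat.dvd_iff_prime_pow_dvd_dvd]
    intro p e hp he
    have hgi : ((p : ℤ)) ^ e ∣ g := by
      have : ((p ^ e : ℕ) : ℤ) ∣ g := Int.natCast_dvd.2 he
      exact_mod_cast this
    by_cases he0 : e = 0
    · rw [he0, pow_zero]
      exact one_dvd _
    have hpg : (p : ℤ) ∣ g := (dvd_pow_self _ he0).trans hgi
    have hpS : p ∈ S := by
      have hpp := Nat.prime_iff_prime_int.1 hp
      rcases hpp.dvd_or_dvd (hpg.trans hgD) with h | h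
      · exact hS' p hp h
      · obtain ⟨q, hq, hdq⟩ := (Prime.dvd_finsetProd_iff hpp _).1 h
        have h1 := hpp.dvd_of_dvd_pow hdq
        have h2 : p ∣ q := by exact_mod_cast h1
        rw [(Nat.prime_dvd_prime_iff_eq hp (hSp q hq)).1 h2]
        exact hq
    have heK : e ≤ K := by
      by_contra hcon
      push Not at hcon
      exact hn0S p hpS (((pow_dvd_pow _ hcon).trans hgi).trans hgn)
    have h1 : (p : ℤ) ^ e ∣ P := (pow_dvd_pow _ (by omega)).trans (hPS p hpS)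
    have h2 : ((p ^ e : ℕ) : ℤ) ∣ P := by exact_mod_cast h1
    exact Int.natCast_dvd.1 h2
  -- the base local solutions
  have hsol : ∀ p ∈ S, ∃ (u : M) (r : ℤ), (p : ℤ) ^ E ∣ r ^ 2 - r + 1 - Q.f u ∧
      ¬ (p : ℤ) ^ (K + 1) ∣ Q.b v1 u + k * (2 * r - 1) := fun p hp =>
    locsol Q (hSp p hp) (hK p hp) (by omega) fun h3 => hloc p (hSp p hp) h3 (hSd p hp)
  choose! U R hUR using hsol
  -- transfer of the valuations
  have hval1 : ∀ (U : ℕ → M) (R : ℕ → ℤ) (x : M) (r : ℤ),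
      (∀ p ∈ S, ¬ (p : ℤ) ^ (K + 1) ∣ Q.b v1 (U p) + k * (2 * R p - 1)) →
      (∀ p ∈ S, (p : ℤ) ^ E ∣ (Q.b v1 x + k * (2 * r - 1)) -
        (Q.b v1 (U p) + k * (2 * R p - 1))) →
      ∀ p ∈ S, ¬ (p : ℤ) ^ (K + 1) ∣ Q.b v1 x + k * (2 * r - 1) := by
    intro U R x r hU hx p hp h
    apply hU p hp
    have := dvd_sub h ((pow_dvd_pow _ (by omega : K + 1 ≤ E)).trans (hx p hp))
    have e : Q.b v1 x + k * (2 * r - 1) - ((Q.b v1 x + k * (2 * r - 1)) -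
        (Q.b v1 (U p) + k * (2 * R p - 1))) = Q.b v1 (U p) + k * (2 * R p - 1) := by ring
    rwa [e] at this
  rcases hcond with hsq | ⟨q, j, a1, hq, hqa, ha, hcond⟩
  · obtain ⟨x1, r1, hF1, hn1⟩ := glob Q (v1 := v1) (k := k) S hSp E U R fun p hp => (hUR p hp).1
    exact fin2 Q hk h1 h12 hy hid hP0 (hdivP _ hF1)
      (hgP _ (hval1 U R x1 r1 (fun p hp => (hUR p hp).2) hn1)) (Or.inl hsq)
  have hqq := Nat.prime_iff_prime_int.1 hq
  by_cases hqS : q ∈ S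
  swap
  · -- the case `q ∤ 2 k`
    have hq2k : ¬ (q : ℤ) ∣ 2 * k := fun h => hqS (hS' q hq h)
    have hq2 : q ≠ 2 := fun h => hq2k (by rw [h]; exact dvd_mul_right _ _)
    obtain ⟨x1, r1, hF1, hn1⟩ := glob Q (v1 := v1) (k := k) S hSp E U R fun p hp => (hUR p hp).1
    obtain ⟨ζ, hζ⟩ : ∃ ζ : ℤ, jacobiSym ζ q = -1 := by
      have : Fact q.Prime := ⟨hq⟩
      obtain ⟨c, hc⟩ := FiniteField.exists_nonsquare (F := ZMod q) (by
        rw [ZMod.ringChar_zmod_n]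
        exact hq2)
      obtain ⟨ζ, hζ⟩ := ZMod.intCast_surjective c
      refine ⟨ζ, ?_⟩
      rw [← jacobiSym.legendreSym.to_jacobiSym, legendreSym.eq_neg_one_iff, hζ]
      exact hc
    have hqm : ¬ q ∣ ∏ p ∈ S, p ^ E := by
      intro h
      obtain ⟨p, hp, hd⟩ := (Prime.dvd_finsetProd_iff hq.prime _).1 h
      have h2 := hq.dvd_of_dvd_pow hd
      rw [(Nat.prime_dvd_prime_iff_eq hq (hSp p hp)).1 h2] at hqS
      exact hqS hp
    obtain ⟨z, hz2, -, hzm, hzJ⟩ := hzed q hq j 3 a1 (∏ p ∈ S, p ^ E) ζ le_rfl hqa hqm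
      (fun h => absurd h hq2) (fun _ => hζ)
    have hzp : ∀ p ∈ S, (p : ℤ) ^ E ∣ (z : ℤ) - 1 := by
      intro p hp
      refine dvd_trans ?_ hzm
      push_cast
      exact dvd_prod_of_mem (fun p : ℕ => (p : ℤ) ^ E) hp
    refine fin2 Q hk h1 h12 hy hid hP0 (hdivP _ hF1)
      (hgP _ (hval1 U R x1 r1 (fun p hp => (hUR p hp).2) hn1))
      (Or.inr ⟨z, x1, r1, hz2, by rw [ha]; exact hzJ, hcopz _ fun p hp h => ?_,
        hdivP _ hF1, hdivT _ fun p hp => ?_⟩)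
    · have h2 := (dvd_pow_self _ (by omega)).trans (hzp p hp)
      apply (Nat.prime_iff_prime_int.1 (hSp p hp)).not_isUnit
      refine isUnit_of_dvd_one ?_
      have := dvd_sub h h2
      have e : (z : ℤ) - ((z : ℤ) - 1) = 1 := by ring
      rwa [e] at this
    · have e : Q.b v1 x1 + k * (2 * r1 - 1) - z * (Q.b v1 x1 + k * (2 * r1 - 1)) =
          ((z : ℤ) - 1) * -(Q.b v1 x1 + k * (2 * r1 - 1)) := by ring
      rw [e]
      exact (hzp p hp).mul_right _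
  -- the case `q ∣ 2 k`
  have hgoodq : q % 3 ≠ 1 → ∃ v, Good q (Q.f v) := fun h3 => hloc q hq h3 (hSd q hqS)
  have hfy : q ≠ 3 → ∃ g : ℤ, ¬ (q : ℤ) ∣ g ∧ Q.f y = q ^ (2 * j + 1) * g := by
    intro hq3
    have h3 : ¬ (q : ℤ) ∣ 3 := fun h => hq3
      ((Nat.prime_dvd_prime_iff_eq hq Nat.prime_three).1 (by exact_mod_cast h))
    have h4 : (3 : ℤ) ∣ a1 := by
      have h5 : (3 : ℤ) ∣ (q : ℤ) ^ (2 * j + 1) * a1 := by
        push_cast at ha
        rw [← ha]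
        exact dvd_mul_right _ _
      rcases Int.prime_three.dvd_or_dvd h5 with h | h
      · exfalso
        have h6 := Int.prime_three.dvd_of_dvd_pow h
        have h7 : 3 ∣ q := by exact_mod_cast h6
        exact hq3 ((Nat.prime_dvd_prime_iff_eq Nat.prime_three hq).1 h7).symm
      · exact h
    obtain ⟨g, hg⟩ := h4
    refine ⟨g, fun h => hqa ?_, ?_⟩
    · have : (q : ℤ) ∣ a1 := by rw [hg]; exact h.mul_left _
      exact_mod_cast this
    · push_cast at ha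
      rw [hg] at ha
      linarith
  have hpair : Pair Q v1 k q K E := by
    by_cases h4 : q % 4 = 3
    · exact pair_sign Q hq h4 (hK q hqS) (by omega) hgoodq
    by_cases h3 : q % 3 = 2
    · obtain ⟨g, hg, hfy⟩ := hfy (by rintro rfl; norm_num at h3)
      obtain ⟨V, hV⟩ := hgoodq (by omega)
      exact pair_two Q hval hptwo hk hid hq h3 hV hg hfy (hK q hqS) (by omega)
    have hq2 : q ≠ 2 := by rintro rfl; norm_num at h3
    have hq3 : q ≠ 3 := by rintro rfl; norm_num at h4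
    have h5 : q % 2 = 1 := (hq.eq_two_or_odd).resolve_left hq2
    have h6 : q % 3 ≠ 0 := fun h =>
      hq3 ((Nat.prime_dvd_prime_iff_eq Nat.prime_three hq).1 (Nat.dvd_of_mod_eq_zero h)).symm
    have h7 : ¬ (q : ℤ) ∣ 2 := fun h => hq2
      ((Nat.prime_dvd_prime_iff_eq hq Nat.prime_two).1 (by exact_mod_cast h))
    rcases hcond with h | h | ⟨V, hV⟩
    · omega
    · exact absurd ((hqq.dvd_or_dvd (hSd q hqS)).resolve_left h7) h
    · obtain ⟨g, hg, hfy⟩ := hfy hq3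
      exact pair_one Q hval hpone hk hid hq hq2 hq3 hV hg hfy (hK q hqS) (by omega)
  obtain ⟨u, u', r, r', ζ, p1, p2, p3, p4, p5, p6⟩ := hpair
  have hqm : ¬ q ∣ ∏ p ∈ S.erase q, p ^ E := by
    intro h
    obtain ⟨p, hp, hd⟩ := (Prime.dvd_finsetProd_iff hq.prime _).1 h
    have h2 := hq.dvd_of_dvd_pow hd
    exact (ne_of_mem_erase hp) ((Nat.prime_dvd_prime_iff_eq hq (hSp p (mem_of_mem_erase hp))).1
      h2).symm
  obtain ⟨z, hz2, hzq, hzm, hzJ⟩ := hzed q hq j E a1 (∏ p ∈ S.erase q, p ^ E) ζ (by omega) hqa hqm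
    p5 p6
  have hzp : ∀ p ∈ S, p ≠ q → (p : ℤ) ^ E ∣ (z : ℤ) - 1 := by
    intro p hp hpq
    refine dvd_trans ?_ hzm
    push_cast
    exact dvd_prod_of_mem (fun p : ℕ => (p : ℤ) ^ E) (mem_erase.2 ⟨hpq, hp⟩)
  obtain ⟨x1, r1, hF1, hn1⟩ := glob Q (v1 := v1) (k := k) S hSp E (Function.update U q u)
    (Function.update R q r) fun p hp => by
      by_cases hpq : p = q
      · subst hpq
        rw [Function.update_self, Function.update_self]
        exact p1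
      · rw [Function.update_of_ne hpq, Function.update_of_ne hpq]
        exact (hUR p hp).1
  obtain ⟨x2, r2, hF2, hn2⟩ := glob Q (v1 := v1) (k := k) S hSp E (Function.update U q u')
    (Function.update R q r') fun p hp => by
      by_cases hpq : p = q
      · subst hpq
        rw [Function.update_self, Function.update_self]
        exact p2
      · rw [Function.update_of_ne hpq, Function.update_of_ne hpq]
        exact (hUR p hp).1
  refine fin2 Q hk h1 h12 hy hid hP0 (hdivP _ hF1)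
    (hgP _ (hval1 _ _ x1 r1 (fun p hp => ?_) hn1))
    (Or.inr ⟨z, x2, r2, hz2, by rw [ha]; exact hzJ, hcopz _ fun p hp h => ?_,
      hdivP _ hF2, hdivT _ fun p hp => ?_⟩)
  · by_cases hpq : p = q
    · subst hpq
      rw [Function.update_self, Function.update_self]
      exact p3
    · rw [Function.update_of_ne hpq, Function.update_of_ne hpq]
      exact (hUR p hp).2
  · by_cases hpq : p = q
    · subst hpq
      have h2 := (dvd_pow_self _ (by omega)).trans hzq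
      have h3 := dvd_sub h h2
      have e : (z : ℤ) - ((z : ℤ) - ζ) = ζ := by ring
      rw [e] at h3
      by_cases hp2 : p = 2
      · have h4 := p5 hp2
        rw [hp2] at h3
        push_cast at h3
        omega
      · have h4 := p6 hp2
        rw [jacobiSym.mod_left' (a₂ := 0) (by rw [Int.emod_eq_zero_of_dvd h3, Int.zero_emod]),
          jacobiSym.zero_left hq.one_lt] at h4
        norm_num at h4
    · have h2 := (dvd_pow_self _ (by omega)).trans (hzp p hp hpq)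
      apply (Nat.prime_iff_prime_int.1 (hSp p hp)).not_isUnit
      refine isUnit_of_dvd_one ?_
      have := dvd_sub h h2
      have e : (z : ℤ) - ((z : ℤ) - 1) = 1 := by ring
      rwa [e] at this
  · have a2 := hn2 p hp
    have a1' := hn1 p hp
    by_cases hpq : p = q
    · subst hpq
      rw [Function.update_self, Function.update_self] at a2 a1'
      obtain ⟨b1, hb1⟩ := a1'
      obtain ⟨b2, hb2⟩ := a2
      obtain ⟨b3, hb3⟩ := p4
      obtain ⟨b4, hb4⟩ := hzq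
      refine ⟨b2 + b3 - z * b1 - b4 * (Q.b v1 u + k * (2 * r - 1)), ?_⟩
      linear_combination hb2 + hb3 - z * hb1 - (Q.b v1 u + k * (2 * r - 1)) * hb4
    · rw [Function.update_of_ne hpq, Function.update_of_ne hpq] at a2 a1'
      obtain ⟨b1, hb1⟩ := a1'
      obtain ⟨b2, hb2⟩ := a2
      obtain ⟨b4, hb4⟩ := hzp p hp hpq
      refine ⟨b2 - z * b1 - b4 * (Q.b v1 (U p) + k * (2 * R p - 1)), ?_⟩
      linear_combination hb2 - z * hb1 - (Q.b v1 (U p) + k * (2 * R p - 1)) * hb4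

end Pool.Agent.K9h95.RE
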