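import Pool.Agent.K9h95.RE.Stm

/-!
# Leaf PONE
-/

set_option autoImplicit false

namespace Pool.Agent.K9h95.RE

theorem pone_inv {q : ℕ} (hq : q.Prime) (L : ℕ) {a : ℤ} (ha : ¬ (q : ℤ) ∣ a) :
    ∃ b : ℤ, (q : ℤ) ^ L ∣ a * b - 1 := by
  have hp : Prime (q : ℤ) := Nat.prime_iff_prime_int.1 hq
  have h1 : IsCoprime (q : ℤ) a := (Irreducible.coprime_iff_not_dvd hp.irreducible).2 ha
  obtain ⟨u, v, h⟩ := h1.pow_left (m := L)
  exact ⟨v, -u, by linear_combination h⟩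

theorem pone_hensel {q : ℕ} (hq : q.Prime) (hq2 : q ≠ 2) {k β ε : ℤ} (hk : ¬ (q : ℤ) ∣ k)
    (hε : ¬ (q : ℤ) ∣ ε) (h : (q : ℤ) ∣ β ^ 2 - 4 * ε * k ^ 2) (L : ℕ) :
    ∃ σ : ℤ, (q : ℤ) ^ (L + 1) ∣ σ ^ 2 - 4 * ε ∧ (q : ℤ) ∣ k * σ - β := by
  have hp : Prime (q : ℤ) := Nat.prime_iff_prime_int.1 hq
  have h2 : ¬ (q : ℤ) ∣ 2 := by
    intro h2
    have h3 : q ∣ 2 := by exact_mod_cast h2
    exact hq2 ((Nat.prime_dvd_prime_iff_eq hq Nat.prime_two).1 h3)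
  induction L with
  | zero =>
    obtain ⟨b, hb⟩ := pone_inv hq 1 hk
    rw [pow_one] at hb
    refine ⟨β * b, ?_, ?_⟩
    · rw [zero_add, pow_one]
      have h4 : (q : ℤ) ∣ k ^ 2 * ((β * b) ^ 2 - 4 * ε) := by
        obtain ⟨s, hs⟩ := hb
        obtain ⟨t, ht⟩ := h
        exact ⟨t + β ^ 2 * s * (k * b + 1), by linear_combination ht + β ^ 2 * (k * b + 1) * hs⟩
      rcases hp.dvd_or_dvd h4 with h5 | h5
      · exact absurd (hp.dvd_of_dvd_pow h5) hk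
      · exact h5
    · have e : k * (β * b) - β = β * (k * b - 1) := by ring
      rw [e]
      exact hb.mul_left β
  | succ L ih =>
    obtain ⟨σ, hσ, hσ'⟩ := ih
    have hqL : (q : ℤ) ∣ (q : ℤ) ^ (L + 1) := dvd_pow_self _ (Nat.succ_ne_zero L)
    have hs : ¬ (q : ℤ) ∣ 2 * σ := by
      intro h3
      have h4 : (q : ℤ) ∣ σ := (hp.dvd_or_dvd h3).resolve_left h2
      have h5 : (q : ℤ) ∣ 4 * ε := by
        have h6 := hqL.trans hσ
        have e : 4 * ε = σ * σ - (σ ^ 2 - 4 * ε) := by ring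
        rw [e]
        exact dvd_sub (h4.mul_left σ) h6
      have e4 : (4 : ℤ) * ε = 2 * (2 * ε) := by ring
      rw [e4] at h5
      exact hε ((hp.dvd_or_dvd ((hp.dvd_or_dvd h5).resolve_left h2)).resolve_left h2)
    obtain ⟨b, hb⟩ := pone_inv hq 1 hs
    rw [pow_one] at hb
    obtain ⟨t, ht⟩ := hσ
    obtain ⟨s, hs⟩ := hb
    refine ⟨σ - (q : ℤ) ^ (L + 1) * (b * t), ?_, ?_⟩
    · refine ⟨-(t * s) + (q : ℤ) ^ L * (b * t) ^ 2, ?_⟩
      have e1 : (q : ℤ) ^ (L + 1 + 1) = (q : ℤ) ^ L * q * q := by ring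
      have e2 : (q : ℤ) ^ (L + 1) = (q : ℤ) ^ L * q := by ring
      rw [e2] at ht ⊢
      rw [e1]
      linear_combination ht - (q : ℤ) ^ L * q * t * hs
    · have e : k * (σ - (q : ℤ) ^ (L + 1) * (b * t)) - β
          = (k * σ - β) - (q : ℤ) ^ (L + 1) * (k * (b * t)) := by ring
      rw [e]
      exact dvd_sub hσ' (hqL.mul_right _)

/-- one solution for a unit `τ` -/
theorem pone_sol (M q : ℤ) (hqM : q ∣ M) (k β ε σ h i τ τ' : ℤ)
    (hσ : M ∣ σ ^ 2 - 4 * ε) (hσ' : q ∣ k * σ - β) (hh : M ∣ 2 * h - 1)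
    (hi : M ∣ 2 * σ * i - 1) (hτ : M ∣ τ * τ' - 1) :
    M ∣ 4 * ε * ((τ + 3 * τ') * i) ^ 2 - ((τ - 3 * τ') * h) ^ 2 - 3 ∧
    q ∣ (β * ((τ + 3 * τ') * i) + k * ((τ - 3 * τ') * h)) - k * τ := by
  have h5 : M ∣ σ * i - h := by
    have e : σ * i - h = h * (2 * σ * i - 1) - σ * i * (2 * h - 1) := by ring
    rw [e]
    exact dvd_sub (hi.mul_left _) (hh.mul_left _)
  constructor
  · have e : 4 * ε * ((τ + 3 * τ') * i) ^ 2 - ((τ - 3 * τ') * h) ^ 2 - 3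
        = -(i ^ 2 * (τ + 3 * τ') ^ 2) * (σ ^ 2 - 4 * ε)
          + (τ + 3 * τ') ^ 2 * (σ * i + h) * (σ * i - h)
          + 12 * h ^ 2 * (τ * τ' - 1) + 3 * (2 * h + 1) * (2 * h - 1) := by ring
    rw [e]
    exact dvd_add (dvd_add (dvd_add (hσ.mul_left _) (h5.mul_left _)) (hτ.mul_left _))
      (hh.mul_left _)
  · have e : (β * ((τ + 3 * τ') * i) + k * ((τ - 3 * τ') * h)) - k * τ
        = -((τ + 3 * τ') * i) * (k * σ - β) + k * (τ + 3 * τ') * (σ * i - h)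
          + k * τ * (2 * h - 1) := by ring
    rw [e]
    exact dvd_add (dvd_add (hσ'.mul_left _) ((hqM.trans h5).mul_left _))
      ((hqM.trans hh).mul_left _)

/-- LEAF PONE -/
theorem pone : S_PONE := by
  intro q hq hq2 hq3 L k β ε hL hk hε h
  have hp : Prime (q : ℤ) := Nat.prime_iff_prime_int.1 hq
  have h2 : ¬ (q : ℤ) ∣ 2 := by
    intro h2
    have h3 : q ∣ 2 := by exact_mod_cast h2
    exact hq2 ((Nat.prime_dvd_prime_iff_eq hq Nat.prime_two).1 h3)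
  obtain ⟨L, rfl⟩ : ∃ L', L = L' + 1 := ⟨L - 1, by omega⟩
  have hqL : (q : ℤ) ∣ (q : ℤ) ^ (L + 1) := dvd_pow_self _ (Nat.succ_ne_zero L)
  obtain ⟨σ, hσ, hσ'⟩ := pone_hensel hq hq2 hk hε h L
  have hs : ¬ (q : ℤ) ∣ 2 * σ := by
    intro h3
    have h4 : (q : ℤ) ∣ σ := (hp.dvd_or_dvd h3).resolve_left h2
    have h5 : (q : ℤ) ∣ 4 * ε := by
      have h6 := hqL.trans hσ
      have e : 4 * ε = σ * σ - (σ ^ 2 - 4 * ε) := by ring
      rw [e]
      exact dvd_sub (h4.mul_left σ) h6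
    have e4 : (4 : ℤ) * ε = 2 * (2 * ε) := by ring
    rw [e4] at h5
    exact hε ((hp.dvd_or_dvd ((hp.dvd_or_dvd h5).resolve_left h2)).resolve_left h2)
  obtain ⟨h', hh⟩ := pone_inv hq (L + 1) h2
  obtain ⟨i, hi⟩ := pone_inv hq (L + 1) hs
  -- the nonresidue
  have : Fact q.Prime := ⟨hq⟩
  obtain ⟨a, ha⟩ := FiniteField.exists_nonsquare (F := ZMod q) (by rw [ZMod.ringChar_zmod_n]; exact hq2)
  obtain ⟨r, rfl⟩ := ZMod.intCast_surjective a
  have hr : jacobiSym r q = -1 := by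
    rw [← jacobiSym.legendreSym.to_jacobiSym]
    exact (legendreSym.eq_neg_one_iff q).2 ha
  have hrq : ¬ (q : ℤ) ∣ r := by
    intro h3
    apply ha
    rw [(ZMod.intCast_zmod_eq_zero_iff_dvd r q).2 h3]
    exact IsSquare.zero
  obtain ⟨r', hr'⟩ := pone_inv hq (L + 1) hrq
  obtain ⟨s1, s2⟩ := pone_sol _ _ hqL k β ε σ h' i 1 1 hσ hσ' hh hi (by simp)
  obtain ⟨s3, s4⟩ := pone_sol _ _ hqL k β ε σ h' i r r' hσ hσ' hh hi hr'
  generalize (1 + 3 * 1) * i = x at s1 s2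
  generalize (1 - 3 * 1) * h' = W at s1 s2
  generalize (r + 3 * r') * i = x' at s3 s4
  generalize (r - 3 * r') * h' = W' at s3 s4
  have hA : ¬ (q : ℤ) ∣ β * x + k * W := by
    intro h3
    apply hk
    have e : k = (β * x + k * W) - ((β * x + k * W) - k * 1) := by ring
    rw [e]
    exact dvd_sub h3 s2
  obtain ⟨b, hb⟩ := pone_inv hq (L + 1) hA
  refine ⟨x, W, x', W', (β * x' + k * W') * b, s1, s3, hA, ?_, ?_⟩
  · have e : (β * x' + k * W') - (β * x' + k * W') * b * (β * x + k * W)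
        = -(β * x' + k * W') * ((β * x + k * W) * b - 1) := by ring
    rw [e]
    exact hb.mul_left _
  · rw [← hr]
    apply jacobiSym.mod_left'
    have h6 : (q : ℤ) ∣ k * ((β * x' + k * W') * b - r) := by
      have e : k * ((β * x' + k * W') * b - r)
          = k * b * ((β * x' + k * W') - k * r) + (r * k) * ((β * x + k * W) * b - 1)
            - (r * k * b) * ((β * x + k * W) - k * 1) := by ring
      rw [e]
      exact dvd_sub (dvd_add (s4.mul_left _) ((hqL.trans hb).mul_left _)) (s2.mul_left _)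
    have h7 := (hp.dvd_or_dvd h6).resolve_left hk
    exact (Int.emod_emod_of_dvd _ (dvd_refl _)).symm.trans
      (Int.emod_emod_of_dvd _ (dvd_refl _)) |>.trans (Int.ModEq.symm (Int.modEq_iff_dvd.2 h7))

end Pool.Agent.K9h95.RE
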