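import Pool.Agent.K9h95.RE.Stm

set_option autoImplicit false

namespace Pool.Agent.K9h95.RE

theorem ptwo_split (q : ℕ) (hq : q.Prime) (n : ℤ) (hn : n ≠ 0) :
    ∃ (a : ℕ) (m : ℤ), ¬ (q : ℤ) ∣ m ∧ n = (q : ℤ) ^ a * m := by
  have h : FiniteMultiplicity (q : ℤ) n :=
    Int.finiteMultiplicity_iff.2 ⟨by simpa using hq.ne_one, hn⟩
  obtain ⟨c, h1, h2⟩ := h.exists_eq_pow_mul_and_not_dvd
  exact ⟨_, c, h2, h1⟩

/-- cancel a power -/
theorem ptwo_cancel (q : ℕ) (hq : q.Prime) (a : ℕ) (m : ℤ)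
    (h : (q : ℤ) ^ (a + 1) ∣ (q : ℤ) ^ a * m) : (q : ℤ) ∣ m := by
  have h0 : (q : ℤ) ^ a ≠ 0 := pow_ne_zero _ (by exact_mod_cast hq.ne_zero)
  rw [pow_succ] at h
  exact (mul_dvd_mul_iff_left h0).1 h

theorem ptwo_jac (q : ℕ) (hq : q.Prime) (h3 : q % 3 = 2) (h2 : q ≠ 2) :
    jacobiSym (-3) q = -1 := by
  have hodd : Odd q := hq.odd_of_ne_two h2
  have h3' : jacobiSym (q : ℤ) 3 = -1 := by
    rw [jacobiSym.mod_left]
    have : ((q : ℤ) % ((3 : ℕ) : ℤ)) = 2 := by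
      have : ((q % 3 : ℕ) : ℤ) = 2 := by rw [h3]; rfl
      simpa using this
    rw [this]
    have h := jacobiSym.at_two (b := 3) (by decide)
    rw [h]
    decide
  have hm1 : jacobiSym (-3) q = jacobiSym (-1) q * jacobiSym 3 q := by
    rw [← jacobiSym.mul_left]; norm_num
  rw [hm1, jacobiSym.at_neg_one hodd]
  have h4 : q % 4 = 1 ∨ q % 4 = 3 := by
    rcases hodd with ⟨t, ht⟩
    omega
  rcases h4 with h4 | h4
  · rw [ZMod.χ₄_nat_one_mod_four h4]
    have := jacobiSym.quadratic_reciprocity_one_mod_four (a := q) (b := 3) h4 (by decide)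
    rw [h3'] at this
    have h5 := jacobiSym.quadratic_reciprocity_one_mod_four' (a := 3) (b := q) (by decide) h4
    have h6 : jacobiSym 3 q = jacobiSym q 3 := by exact_mod_cast h5
    rw [h6, h3']; norm_num
  · rw [ZMod.χ₄_nat_three_mod_four h4]
    have h5 := jacobiSym.quadratic_reciprocity_three_mod_four (a := 3) (b := q) (by decide) h4
    have h6 : jacobiSym 3 q = - jacobiSym q 3 := by exact_mod_cast h5
    rw [h6, h3']; norm_num

theorem ptwo : S_PTWO := by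
  intro q hq hq3 κ L k' k β W hL hk' hk hW h1 h2
  set n : ℤ := β + k * W with hn
  set n' : ℤ := -β + k * W with hn'
  have hqp : Prime (q : ℤ) := Nat.prime_iff_prime_int.1 hq
  have hq0 : (q : ℤ) ≠ 0 := hqp.ne_zero
  have hn3 : ¬ (q : ℤ) ∣ 3 := by
    intro h
    have h' : q ∣ 3 := by exact_mod_cast h
    have := (Nat.prime_dvd_prime_iff_eq hq Nat.prime_three).1 h'
    subst this
    omega
  have hn3k : ¬ (q : ℤ) ∣ 3 * k' ^ 2 := by
    intro h
    rcases hqp.dvd_or_dvd h with h | h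
    · exact hn3 h
    · exact hk' (hqp.dvd_of_dvd_pow h)
  have hk2 : 3 * k ^ 2 = (q : ℤ) ^ (2 * κ) * (3 * k' ^ 2) := by
    rw [hk]; ring
  have hnn : ¬ (q : ℤ) ^ (2 * κ + 1) ∣ n * n' := by
    intro h
    have h3 : (q : ℤ) ^ (2 * κ + 1) ∣ 3 * k ^ 2 := (dvd_add_right h).1 h1
    rw [hk2] at h3
    exact hn3k (ptwo_cancel q hq _ _ h3)
  have hn0 : n ≠ 0 := by
    intro h; apply hnn; rw [h, zero_mul]; exact dvd_zero _
  have hn0' : n' ≠ 0 := by
    intro h; apply hnn; rw [h, mul_zero]; exact dvd_zero _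
  obtain ⟨a, m, hm, ha⟩ := ptwo_split q hq n hn0
  obtain ⟨b, m', hm', hb⟩ := ptwo_split q hq n' hn0'
  have hprod : n * n' = (q : ℤ) ^ (a + b) * (m * m') := by
    rw [ha, hb]; ring
  have hmm : ¬ (q : ℤ) ∣ m * m' := by
    intro h
    rcases hqp.dvd_or_dvd h with h | h
    · exact hm h
    · exact hm' h
  have hab : a + b = 2 * κ := by
    rcases lt_trichotomy (a + b) (2 * κ) with h | h | h
    · exfalso
      have e1 : (q : ℤ) ^ (a + b + 1) ∣ 3 * k ^ 2 := by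
        rw [hk2]
        exact dvd_mul_of_dvd_left (pow_dvd_pow _ (by omega)) _
      have e2 : (q : ℤ) ^ (a + b + 1) ∣ n * n' + 3 * k ^ 2 :=
        (pow_dvd_pow _ (by omega)).trans h1
      have e3 : (q : ℤ) ^ (a + b + 1) ∣ n * n' := (dvd_add_left e1).1 e2
      rw [hprod] at e3
      exact hmm (ptwo_cancel q hq _ _ e3)
    · exact h
    · exfalso
      apply hnn
      rw [hprod]
      exact dvd_mul_of_dvd_left (pow_dvd_pow _ (by omega)) _
  have hsum : (q : ℤ) ^ κ ∣ n + n' := by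
    refine ⟨2 * k' * W, ?_⟩
    rw [hn, hn', hk]; ring
  have haκ : a = κ := by
    rcases lt_trichotomy a b with h | h | h
    · exfalso
      have e1 : (q : ℤ) ^ (a + 1) ∣ n + n' := (pow_dvd_pow _ (by omega)).trans hsum
      have e2 : (q : ℤ) ^ (a + 1) ∣ n' := by
        rw [hb]; exact dvd_mul_of_dvd_left (pow_dvd_pow _ (by omega)) _
      have e3 : (q : ℤ) ^ (a + 1) ∣ n := (dvd_add_left e2).1 e1
      rw [ha] at e3
      exact hm (ptwo_cancel q hq _ _ e3)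
    · omega
    · exfalso
      have e1 : (q : ℤ) ^ (b + 1) ∣ n + n' := (pow_dvd_pow _ (by omega)).trans hsum
      have e2 : (q : ℤ) ^ (b + 1) ∣ n := by
        rw [ha]; exact dvd_mul_of_dvd_left (pow_dvd_pow _ (by omega)) _
      have e3 : (q : ℤ) ^ (b + 1) ∣ n' := (dvd_add_right e2).1 e1
      rw [hb] at e3
      exact hm' (ptwo_cancel q hq _ _ e3)
  have hbκ : b = κ := by omega
  rw [haκ] at ha
  rw [hbκ] at hb
  refine ⟨?_, ?_⟩
  · intro h
    rw [ha] at h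
    exact hm (ptwo_cancel q hq _ _ h)
  -- the quotient
  have hcop : IsCoprime ((q : ℤ) ^ L) m := by
    apply IsCoprime.pow_left
    exact (Prime.coprime_iff_not_dvd hqp).2 hm
  obtain ⟨u, i, hui⟩ := hcop
  -- u * q^L + i * m = 1
  have hz : (q : ℤ) ^ L ∣ m' - (m' * i) * m := by
    refine ⟨m' * u, ?_⟩
    linear_combination (-m') * hui
  have hprod2 : n * n' + 3 * k ^ 2 = (q : ℤ) ^ (2 * κ) * (m * m' + 3 * k' ^ 2) := by
    rw [ha, hb, hk]; ring
  have hqL : (q : ℤ) ∣ (q : ℤ) ^ L := dvd_pow_self _ (by omega)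
  refine ⟨m' * i, ?_, ?_, ?_⟩
  · have : n' - m' * i * n = (q : ℤ) ^ κ * (m' - (m' * i) * m) := by
      rw [ha, hb]; ring
    rw [this]
    exact dvd_mul_of_dvd_right hz _
  · intro hq2
    have h8 := h2 hq2
    rw [hprod2] at h8
    subst hq2
    have h9 : (8 : ℤ) ∣ m * m' + 3 * k' ^ 2 := by
      have h0 : ((2 : ℕ) : ℤ) ^ (2 * κ) ≠ 0 := pow_ne_zero _ (by norm_num)
      rw [pow_add] at h8
      have := (mul_dvd_mul_iff_left h0).1 h8
      norm_num at this
      exact this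
    have h10 : (8 : ℤ) ∣ m' - (m' * i) * m := by
      have h11 : (8 : ℤ) ∣ ((2 : ℕ) : ℤ) ^ L := by
        have : ((2 : ℕ) : ℤ) ^ 3 ∣ ((2 : ℕ) : ℤ) ^ L := pow_dvd_pow _ hL
        norm_num at this ⊢
        exact this
      exact h11.trans hz
    have hm2 : m % 2 = 1 := by
      have : ¬ (2 : ℤ) ∣ m := by exact_mod_cast hm
      omega
    have hk2 : k' % 2 = 1 := by
      have : ¬ (2 : ℤ) ∣ k' := by exact_mod_cast hk'
      omega
    have sq1 : (8 : ℤ) ∣ m ^ 2 - 1 := by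
      exact Int.eight_dvd_sq_sub_one_of_odd (by rw [Int.odd_iff]; exact hm2)
    have sq2 : (8 : ℤ) ∣ k' ^ 2 - 1 :=
      Int.eight_dvd_sq_sub_one_of_odd (by rw [Int.odd_iff]; exact hk2)
    generalize m' * i = z at h10 ⊢
    -- m' = z m + 8 .., so m m' = z m^2, z = z m^2 = m m' = -3 k'^2 = -3
    have h12 : (8 : ℤ) ∣ z + 3 := by
      have e : z + 3 = (m * m' + 3 * k' ^ 2) - m * (m' - z * m) - z * (m ^ 2 - 1)
          - 3 * (k' ^ 2 - 1) := by ring
      rw [e]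
      exact dvd_sub (dvd_sub (dvd_sub h9 (dvd_mul_of_dvd_right h10 _))
        (dvd_mul_of_dvd_right sq1 _)) (dvd_mul_of_dvd_right sq2 _)
    omega
  · intro hq2
    have h9 : (q : ℤ) ∣ m * m' + 3 * k' ^ 2 := by
      rw [hprod2] at h1
      exact ptwo_cancel q hq _ _ h1
    have h10 : (q : ℤ) ∣ m' - (m' * i) * m := hqL.trans hz
    generalize m' * i = z at h10 ⊢
    have h11 : (q : ℤ) ∣ z * m ^ 2 - (-3) * k' ^ 2 := by
      have e : z * m ^ 2 - (-3) * k' ^ 2 = (m * m' + 3 * k' ^ 2) - m * (m' - z * m) := by ring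
      rw [e]
      exact dvd_sub h9 (dvd_mul_of_dvd_right h10 _)
    have h12 : jacobiSym (z * m ^ 2) q = jacobiSym ((-3) * k' ^ 2) q := by
      apply jacobiSym.mod_left'
      exact Int.emod_eq_emod_iff_emod_sub_eq_zero.2 (Int.emod_eq_zero_of_dvd h11)
    have hgcd : ∀ x : ℤ, ¬ (q : ℤ) ∣ x → jacobiSym (x ^ 2) q = 1 := by
      intro x hx
      apply jacobiSym.sq_one'
      have : IsCoprime (q : ℤ) x := (Prime.coprime_iff_not_dvd hqp).2 hx
      exact Int.isCoprime_iff_gcd_eq_one.1 this.symm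
    rw [jacobiSym.mul_left, jacobiSym.mul_left, hgcd m hm, hgcd k' hk', mul_one, mul_one,
      ptwo_jac q hq hq3 hq2] at h12
    exact h12

end Pool.Agent.K9h95.RE
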