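import Pool.Agent.K9h95.RE.Stm

/-! LEAF VAL (helper64). -/

set_option autoImplicit false

namespace Pool.Agent.K9h95.RE

lemma val_fac {q : ℕ} (hq : q.Prime) {X : ℤ} (hX : X ≠ 0) :
    ∃ (e : ℕ) (X' : ℤ), X = (q : ℤ) ^ e * X' ∧ ¬ (q : ℤ) ∣ X' := by
  have hf : FiniteMultiplicity (q : ℤ) X := by
    rw [Int.finiteMultiplicity_iff]
    exact ⟨by simpa using hq.one_lt.ne', hX⟩
  obtain ⟨c, hc, h⟩ := hf.exists_eq_pow_mul_and_not_dvd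
  exact ⟨_, c, hc, h⟩

lemma val_uniq_aux {q : ℕ} (hq : q.Prime) {a b : ℕ} {u w : ℤ} (hu : ¬ (q : ℤ) ∣ u)
    (h : (q : ℤ) ^ a * u = (q : ℤ) ^ b * w) : b ≤ a := by
  have hq0 : (q : ℤ) ≠ 0 := by exact_mod_cast hq.ne_zero
  by_contra hab
  obtain ⟨d, rfl⟩ : ∃ d, b = a + (d + 1) := ⟨b - a - 1, by omega⟩
  rw [pow_add, mul_assoc] at h
  have h1 := mul_left_cancel₀ (pow_ne_zero a hq0) h
  exact hu ⟨(q : ℤ) ^ d * w, by rw [h1, pow_succ]; ring⟩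

lemma val_uniq {q : ℕ} (hq : q.Prime) {a b : ℕ} {u w : ℤ} (hu : ¬ (q : ℤ) ∣ u)
    (hw : ¬ (q : ℤ) ∣ w) (h : (q : ℤ) ^ a * u = (q : ℤ) ^ b * w) : a = b :=
  le_antisymm (val_uniq_aux hq hw h.symm) (val_uniq_aux hq hu h)

lemma val_aux {q : ℕ} (hq : q.Prime) {κ j : ℕ} {k' g y k c β ε : ℤ} (hk' : ¬ (q : ℤ) ∣ k')
    (hg : ¬ (q : ℤ) ∣ g) (hk : k = q ^ κ * k') (hy : y = q ^ (2 * j + 1) * g)
    (h : 4 * k ^ 2 * y * ε = y * β ^ 2 + k ^ 2 * c ^ 2) {M : ℕ}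
    (hM : (q : ℤ) ^ (2 * M) ∣ 4 * k ^ 2 * ε) :
    (q : ℤ) ^ (2 * M + 1) ∣ 4 * k ^ 2 * ε - β ^ 2 := by
  have hq0 : (q : ℤ) ≠ 0 := by exact_mod_cast hq.ne_zero
  have hp : Prime (q : ℤ) := Nat.prime_iff_prime_int.1 hq
  have hg0 : g ≠ 0 := fun h => hg (h ▸ dvd_zero _)
  have hk0' : k' ≠ 0 := fun h => hk' (h ▸ dvd_zero _)
  have hy0 : y ≠ 0 := by rw [hy]; exact mul_ne_zero (pow_ne_zero _ hq0) hg0
  by_cases hX : 4 * k ^ 2 * ε - β ^ 2 = 0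
  · rw [hX]; exact dvd_zero _
  obtain ⟨e, X', hX', hXq⟩ := val_fac hq hX
  have hc : c ≠ 0 := by
    rintro rfl
    have : y * (4 * k ^ 2 * ε - β ^ 2) = 0 := by linear_combination h
    rcases mul_eq_zero.1 this with h1 | h1
    · exact hy0 h1
    · exact hX h1
  obtain ⟨γ, c', hc', hcq⟩ := val_fac hq hc
  have e1 : (q : ℤ) ^ (2 * j + 1 + e) * (g * X') = (q : ℤ) ^ (2 * κ + 2 * γ) * (k' ^ 2 * c' ^ 2) := by
    have h2 : y * (4 * k ^ 2 * ε - β ^ 2) = k ^ 2 * c ^ 2 := by linear_combination h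
    rw [hX', hy, hk, hc'] at h2
    calc (q : ℤ) ^ (2 * j + 1 + e) * (g * X') = (q : ℤ) ^ (2 * j + 1) * g * ((q : ℤ) ^ e * X') := by
          rw [pow_add]; ring
      _ = ((q : ℤ) ^ κ * k') ^ 2 * ((q : ℤ) ^ γ * c') ^ 2 := h2
      _ = _ := by rw [pow_add, pow_mul', pow_mul']; ring
  have n1 : ¬ (q : ℤ) ∣ g * X' := fun h => (hp.dvd_or_dvd h).elim hg hXq
  have n2 : ¬ (q : ℤ) ∣ k' ^ 2 * c' ^ 2 := fun h => (hp.dvd_or_dvd h).elim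
    (fun h => hk' (hp.dvd_of_dvd_pow h)) (fun h => hcq (hp.dvd_of_dvd_pow h))
  have e2 := val_uniq hq n1 n2 e1
  by_cases hMe : 2 * M + 1 ≤ e
  · rw [hX']
    exact (pow_dvd_pow _ hMe).mul_right _
  · exfalso
    obtain ⟨t, ht⟩ := hM
    obtain ⟨d, hd⟩ : ∃ d, 2 * M = e + (d + 1) := ⟨2 * M - e - 1, by omega⟩
    have e3 : β ^ 2 = (q : ℤ) ^ e * ((q : ℤ) * ((q : ℤ) ^ d * t) - X') := by
      rw [hd, pow_add, pow_succ] at ht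
      linear_combination ht - hX'
    have n3 : ¬ (q : ℤ) ∣ (q : ℤ) * ((q : ℤ) ^ d * t) - X' := fun h =>
      hXq ((dvd_sub_right (dvd_mul_right _ _)).1 h)
    have hβ : β ≠ 0 := by
      rintro rfl
      have h3 : (q : ℤ) ^ e * ((q : ℤ) * ((q : ℤ) ^ d * t) - X') = 0 := by
        rw [← e3]; ring
      rcases mul_eq_zero.1 h3 with h4 | h4
      · exact pow_ne_zero _ hq0 h4
      · exact n3 (h4 ▸ dvd_zero _)
    obtain ⟨b, β', hb, hbq⟩ := val_fac hq hβ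
    have e4 : (q : ℤ) ^ (2 * b) * β' ^ 2 =
        (q : ℤ) ^ e * ((q : ℤ) * ((q : ℤ) ^ d * t) - X') := by
      rw [← e3, hb, pow_mul']
      ring
    have e5 := val_uniq hq (fun h => hbq (hp.dvd_of_dvd_pow h)) n3 e4
    omega

theorem val : S_VAL := by
  intro q hq κ j k' g y k c β ε hk' hg _ hk hy h
  refine ⟨val_aux hq hk' hg hk hy h (M := κ) ⟨4 * k' ^ 2 * ε, by rw [hk, pow_mul']; ring⟩, ?_⟩
  intro h2
  refine val_aux hq hk' hg hk hy h (M := κ + 1) ⟨k' ^ 2 * ε, ?_⟩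
  have h3 : (q : ℤ) = 2 := by exact_mod_cast h2
  rw [hk, h3, mul_add, pow_add, pow_mul']
  ring

end Pool.Agent.K9h95.RE
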