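import Pool.Agent.K9h95.RE.Stm

/-!
# LEAF ZED: a number with prescribed residues and the Jacobi symbol `-1`
-/

set_option autoImplicit false

namespace Pool.Agent.K9h95.RE

/-- Chinese remainder theorem with an integer residue. -/
theorem zed_crt {A B : ℕ} (hA : A ≠ 0) (hAB : A.Coprime B) (ζ : ℤ) :
    ∃ z : ℕ, (A : ℤ) ∣ (z : ℤ) - ζ ∧ (B : ℤ) ∣ (z : ℤ) - 1 := by
  obtain ⟨z, hz1, hz2⟩ := Nat.chineseRemainder hAB (ζ % (A : ℤ)).toNat 1
  have hA' : (A : ℤ) ≠ 0 := by exact_mod_cast hA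
  have h0 : (((ζ % (A : ℤ)).toNat : ℕ) : ℤ) = ζ % (A : ℤ) := Int.toNat_of_nonneg (Int.emod_nonneg _ hA')
  refine ⟨z, ?_, ?_⟩
  · have h1 := (Nat.modEq_iff_dvd.1 hz1.symm)
    rw [h0] at h1
    have h2 : (A : ℤ) ∣ ζ % (A : ℤ) - ζ := by
      have := Int.emod_add_mul_ediv ζ (A : ℤ)
      exact ⟨-(ζ / (A : ℤ)), by linarith⟩
    have := dvd_add h1 h2
    rwa [sub_add_sub_cancel] at this
  · have h1 := (Nat.modEq_iff_dvd.1 hz2.symm)
    exact_mod_cast h1

theorem zed : S_ZED := by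
  intro q hq j L a1 m ζ hL ha hm h2 hodd
  have ha0 : a1 ≠ 0 := by rintro rfl; exact ha (dvd_zero _)
  have hca : q.Coprime a1 := (Nat.Prime.coprime_iff_not_dvd hq).2 ha
  have hcm : q.Coprime m := (Nat.Prime.coprime_iff_not_dvd hq).2 hm
  have key : ∀ z : ℕ, jacobiSym ((q ^ (2 * j + 1) * a1 : ℕ) : ℤ) z =
      jacobiSym (q : ℤ) z ^ (2 * j + 1) * jacobiSym (a1 : ℤ) z := by
    intro z
    push_cast
    rw [jacobiSym.mul_left, jacobiSym.pow_left]
  have hm1 : (-1 : ℤ) ^ (2 * j + 1) * 1 = -1 := by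
    rw [mul_one]
    exact Odd.neg_one_pow ⟨j, rfl⟩
  by_cases hq2 : q = 2
  · subst hq2
    have hc : (2 ^ L).Coprime (a1 * m) := Nat.Coprime.pow_left _ (Nat.Coprime.mul_right hca hcm)
    obtain ⟨z, hz1, hz2⟩ := zed_crt (pow_ne_zero _ (by norm_num)) hc ζ
    have h8 : (8 : ℤ) ∣ (z : ℤ) - ζ := by
      have : ((2 ^ 3 : ℕ) : ℤ) ∣ ((2 ^ L : ℕ) : ℤ) := by exact_mod_cast pow_dvd_pow 2 hL
      exact (by norm_num : (8 : ℤ) = ((2 ^ 3 : ℕ) : ℤ)) ▸ this.trans hz1
    have hz8 : z % 8 = 5 := by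
      have := h2 rfl
      omega
    have hzo : Odd z := by rw [Nat.odd_iff]; omega
    have hao : Odd a1 := by
      rw [← Nat.not_even_iff_odd, even_iff_two_dvd]
      exact ha
    refine ⟨z, by omega, by exact_mod_cast hz1, ?_, ?_⟩
    · refine dvd_trans ?_ hz2
      push_cast
      exact dvd_mul_left _ _
    · have e1 : jacobiSym ((2 : ℕ) : ℤ) z = -1 := by
        have := jacobiSym.at_two hzo
        push_cast
        rw [this, ZMod.χ₈_nat_eq_if_mod_eight]
        simp [hz8]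
        omega
      have e2 : jacobiSym (a1 : ℤ) z = 1 := by
        rw [jacobiSym.quadratic_reciprocity_one_mod_four' hao (by omega : z % 4 = 1)]
        have : ((z : ℤ)) % (a1 : ℤ) = 1 % (a1 : ℤ) := by
          refine Int.emod_emod_of_dvd _ (dvd_refl _) ▸ ?_
          refine (Int.emod_emod_of_dvd _ (dvd_refl _)).trans ?_
          refine Int.emod_eq_emod_iff_emod_sub_eq_zero.2 (Int.emod_eq_zero_of_dvd ?_)
          refine dvd_trans ?_ hz2
          push_cast
          exact dvd_mul_right _ _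
        rw [jacobiSym.mod_left' this, jacobiSym.one_left]
      rw [key z, e1, e2, hm1]
  · have hqo : Odd q := hq.odd_of_ne_two hq2
    have hc8 : q.Coprime 8 := by
      have : q.Coprime 2 := (Nat.coprime_primes hq Nat.prime_two).2 hq2
      exact (by norm_num : (8 : ℕ) = 2 ^ 3) ▸ Nat.Coprime.pow_right 3 this
    have hc : (q ^ L).Coprime (8 * a1 * m) :=
      Nat.Coprime.pow_left _ (Nat.Coprime.mul_right (Nat.Coprime.mul_right hc8 hca) hcm)
    obtain ⟨z, hz1, hz2⟩ := zed_crt (pow_ne_zero _ hq.ne_zero) hc ζ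
    have h8 : (8 : ℤ) ∣ (z : ℤ) - 1 := by
      refine dvd_trans ?_ hz2
      push_cast
      exact ⟨(a1 : ℤ) * m, by ring⟩
    have h4a : (((4 * a1 : ℕ)) : ℤ) ∣ (z : ℤ) - 1 := by
      refine dvd_trans ?_ hz2
      push_cast
      exact ⟨2 * m, by ring⟩
    have hz8 : z % 8 = 1 := by omega
    have hzo : Odd z := by rw [Nat.odd_iff]; omega
    refine ⟨z, by omega, by exact_mod_cast hz1, ?_, ?_⟩
    · refine dvd_trans ?_ hz2
      push_cast
      exact dvd_mul_left _ _
    · have e1 : jacobiSym (q : ℤ) z = -1 := by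
        rw [jacobiSym.quadratic_reciprocity_one_mod_four' hqo (by omega : z % 4 = 1)]
        have : ((z : ℤ)) % (q : ℤ) = ζ % (q : ℤ) := by
          refine Int.emod_eq_emod_iff_emod_sub_eq_zero.2 (Int.emod_eq_zero_of_dvd ?_)
          refine dvd_trans ?_ hz1
          push_cast
          exact dvd_pow_self _ (by omega)
        rw [jacobiSym.mod_left' this]
        exact hodd hq2
      have e2 : jacobiSym (a1 : ℤ) z = 1 := by
        rw [jacobiSym.mod_right' a1 hzo]
        have : z % (4 * a1) = 1 := by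
          have h3 : (z : ℤ) % ((4 * a1 : ℕ) : ℤ) = 1 % ((4 * a1 : ℕ) : ℤ) :=
            Int.emod_eq_emod_iff_emod_sub_eq_zero.2 (Int.emod_eq_zero_of_dvd h4a)
          have h4 : z % (4 * a1) = 1 % (4 * a1) := by exact_mod_cast h3
          rw [h4]
          exact Nat.mod_eq_of_lt (by omega)
        rw [this, jacobiSym.one_right]
      rw [key z, e1, e2, hm1]

end Pool.Agent.K9h95.RE
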