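import Pool.Agent.K9h36.RT.Geom
import Pool.Agent.K9h95.RE.Main3
import Pool.Agent.K9h95.RE.Val
import Pool.Agent.K9h95.RE.Ptwo
import Pool.Agent.K9h95.RE.Pone
import Pool.Agent.K9h95.RE.Zed

/-!
# Cubic fourfolds of rank three with a class of discriminant `2 k²`: values `2 n² + 2 n + 2`
-/

set_option autoImplicit false

namespace Pool.Agent.K9h95.RE

open Pool.Agent.Y95.Q Pool.Agent.Y95.Q.H4 Pool.Agent.X328.CF Pool.Agent.N801.CF Module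

/-- an odd valuation -/
theorem odd_val {q : ℕ} (hq : q.Prime) {A e n s t : ℕ} (hA : A ≠ 0) (hs : s ≠ 0) (ht : t ≠ 0)
    (hn : n ≠ 0) (he : Squarefree e) (hqe : q ∣ e) (h : t ^ 2 * (e * n ^ 2) = s ^ 2 * A) :
    ∃ j a1 : ℕ, ¬ q ∣ a1 ∧ A = q ^ (2 * j + 1) * a1 := by
  have he0 : e ≠ 0 := he.ne_zero
  obtain ⟨m, a1, h1, h2⟩ := Nat.exists_eq_pow_mul_and_not_dvd hA q hq.ne_one
  have h3 : (t ^ 2 * (e * n ^ 2)).factorization q = (s ^ 2 * A).factorization q := by rw [h]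
  have ha1 : a1 ≠ 0 := by
    rintro rfl
    exact h1 (dvd_zero q)
  rw [Nat.factorization_mul (pow_ne_zero 2 ht) (mul_ne_zero he0 (pow_ne_zero 2 hn)),
    Nat.factorization_mul he0 (pow_ne_zero 2 hn), Nat.factorization_mul (pow_ne_zero 2 hs) hA,
    Nat.factorization_pow, Nat.factorization_pow, Nat.factorization_pow] at h3
  simp only [Finsupp.add_apply, Finsupp.smul_apply, smul_eq_mul] at h3
  have h4 : e.factorization q = 1 := by
    have h5 := he.natFactorization_le_one q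
    have h6 := hq.factorization_pos_of_dvd he0 hqe
    omega
  have h5 : A.factorization q = m := by
    rw [h2, Nat.factorization_mul (pow_ne_zero _ hq.ne_zero) ha1,
      Finsupp.add_apply, Nat.factorization_eq_zero_of_not_dvd h1, Nat.factorization_pow,
      Finsupp.smul_apply, hq.factorization_self]
    simp
  rw [h4, h5] at h3
  refine ⟨m / 2, a1, h1, ?_⟩
  rw [h2]
  congr 2
  omega

/-- the squarefree part -/
theorem sel {a G s t : ℤ} (ha : 0 < a) (ht : t ≠ 0) (hG0 : G ≠ 0) (hs : s ≠ 0)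
    (h : t ^ 2 * G = s ^ 2 * a) :
    ∃ e n : ℕ, Squarefree e ∧ G = e * (n : ℤ) ^ 2 ∧ (e = 1 → IsSquare a) ∧
      ∀ q : ℕ, q.Prime → q ∣ e →
        ∃ j a1 : ℕ, ¬ q ∣ a1 ∧ a = ((q ^ (2 * j + 1) * a1 : ℕ) : ℤ) := by
  have hGpos : 0 < G := by
    have h5 : 0 < t ^ 2 * G := by
      rw [h]
      positivity
    exact (pos_iff_pos_of_mul_pos h5).1 (by positivity)
  obtain ⟨e, n, hen, hsf⟩ : ∃ (e n : ℕ), G = e * (n : ℤ) ^ 2 ∧ Squarefree e := by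
    obtain ⟨e, n, h5, h6⟩ := Nat.sq_mul_squarefree G.toNat
    refine ⟨e, n, ?_, h6⟩
    have h7 : (G.toNat : ℤ) = G := Int.toNat_of_nonneg hGpos.le
    rw [← h7, ← h5]
    push_cast
    ring
  have hn0 : n ≠ 0 := by
    intro h5
    rw [h5] at hen
    exact hG0 (by rw [hen]; simp)
  refine ⟨e, n, hsf, hen, fun he1 => ?_, fun q hq hqe => ?_⟩
  · rw [he1] at hen
    have h5 : s ^ 2 ∣ (t * n) ^ 2 := ⟨a, by rw [← h, hen]; push_cast; ring⟩
    obtain ⟨x, hx⟩ := (Int.pow_dvd_pow_iff two_ne_zero).1 h5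
    refine ⟨x, ?_⟩
    apply mul_left_cancel₀ (pow_ne_zero 2 hs)
    rw [← h, hen]
    push_cast
    linear_combination (t * n + s * x) * hx
  · have h5 : t.natAbs ^ 2 * (e * n ^ 2) = s.natAbs ^ 2 * a.natAbs := by
      have h6 := congrArg Int.natAbs h
      rw [hen, Int.natAbs_mul, Int.natAbs_mul, Int.natAbs_mul, Int.natAbs_pow, Int.natAbs_pow,
        Int.natAbs_pow, Int.natAbs_natCast, Int.natAbs_natCast] at h6
      exact h6
    obtain ⟨j, a1, h7, h8⟩ := odd_val hq (Int.natAbs_ne_zero.2 ha.ne') (Int.natAbs_ne_zero.2 hs)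
      (Int.natAbs_ne_zero.2 ht) hn0 hsf hqe h5
    exact ⟨j, a1, h7, by rw [← h8]; exact (Int.natAbs_of_nonneg ha.le).symm⟩

variable {X : CubicFourfold} {H : H4 X}

/-- **Values `2 n² + 2 n + 2` of the discriminant in rank three** -/
theorem value_rank_three (hH : H.IsCohomology) (hr : finrank ℤ H.hodge = 3) {v : Fin 23 → ℤ}
    (hv : H.IsHodge v) {k : ℤ} (hk : k ≠ 0) (hd : H.disc v = 2 * k ^ 2)
    {u w : Fin 23 → ℤ} (hu : H.IsHodge u) (hw : H.IsHodge w)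
    (hG0 : Pool.Agent.K9h36.RT.gram H u w ≠ 0)
    (hG : ∀ s n : ℤ, 1 < s → Squarefree s → Pool.Agent.K9h36.RT.gram H u w = s * n ^ 2 →
      ∃ p : ℕ, p.Prime ∧ (p : ℤ) ∣ s ∧
        (p % 12 ≠ 1 ∨ ∃ z, H.IsHodge z ∧ ¬ (p : ℤ) ∣ H.disc z))
    (hloc : ∀ p : ℕ, p.Prime → p % 3 ≠ 1 → (p : ℤ) ∣ 2 * k →
      ∃ w, H.IsHodge w ∧ AdmissibleAt p (H.disc w)) :
    ∃ (w : Fin 23 → ℤ) (n : ℤ), H.IsHodge w ∧ H.disc w = 2 * n ^ 2 + 2 * n + 2 := by
  obtain ⟨y, h1, h12, hy, hid, hgram⟩ := Pool.Agent.K9h36.RT.geometry hH hr hv hk hd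
  obtain ⟨s, t, ht, hs, hst⟩ := hgram u w hu hw
  obtain ⟨e, n, hsf, hen, he1, hval⟩ := sel (by linarith) ht hG0 (hs hG0) hst
  have hcond : IsSquare (3 * (hq hH).f y) ∨ ∃ q j a1 : ℕ, q.Prime ∧ ¬ q ∣ a1 ∧
      3 * (hq hH).f y = ((q ^ (2 * j + 1) * a1 : ℕ) : ℤ) ∧
      (q % 12 ≠ 1 ∨ ¬ (q : ℤ) ∣ k ∨ ∃ V, ¬ (q : ℤ) ∣ (hq hH).f V) := by
    by_cases he : e = 1
    · exact Or.inl (he1 he)
    · have he0 : e ≠ 0 := hsf.ne_zero
      obtain ⟨p, hp, hpe, hor⟩ := hG e n (by omega) (Int.squarefree_natCast.2 hsf) hen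
      obtain ⟨j, a1, h7, h8⟩ := hval p hp (Int.natCast_dvd_natCast.1 hpe)
      refine Or.inr ⟨p, j, a1, hp, h7, h8, hor.imp_right fun h => Or.inr ?_⟩
      obtain ⟨z, hz, hpz⟩ := h
      refine ⟨⟨z, hz⟩, fun h9 => hpz ?_⟩
      rw [disc_half hH z]
      exact Dvd.dvd.mul_left h9 2
  obtain ⟨z, j, hz⟩ := core3 (hq hH) val ptwo pone zed hk h1 h12 hy
    (fun u => by rw [hid u, (hq hH).b_comm u y])
    (fun p hp hp3 hpd => by
      obtain ⟨z, hz, hadm⟩ := hloc p hp hp3 hpd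
      exact ⟨⟨z, hz⟩, good_of_adm hH hp hp3 hadm⟩) hcond
  refine ⟨z, j, z.2, ?_⟩
  rw [hq_f] at hz
  rw [disc_half hH (z : Fin 23 → ℤ), hz]
  ring

end Pool.Agent.K9h95.RE
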