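import Pool.Agent.K9h95.RE.Asm

/-!
# Pairs of local solutions
-/

set_option autoImplicit false

namespace Pool.Agent.K9h95.RE

open Pool.Agent.N801.CF Pool.Agent.K9h38.CF Finset

variable {M : Type*} [AddCommGroup M] (Q : QF M)

theorem locbase {p : ℕ} (hp : p.Prime) (h3 : p % 3 ≠ 1) {V : M} (hV : Good p (Q.f V)) {E : ℕ}
    (hE : 2 ≤ E) : ∃ c r : ℤ, ¬ (p : ℤ) ∣ c ∧ (p : ℤ) ^ E ∣ r ^ 2 - r + 1 - Q.f (c • V) := by
  have hpp := Nat.prime_iff_prime_int.1 hp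
  obtain ⟨a, b, e1, e2, -⟩ := loc_inert hp h3 hV E hE
  obtain ⟨c, d, hcd⟩ : IsCoprime b ((p : ℤ) ^ E) :=
    (((Prime.coprime_iff_not_dvd hpp).2 e2).symm).pow_right
  refine ⟨c, -(c * a), fun h => ?_, ?_⟩
  · apply hpp.not_isUnit
    refine isUnit_of_dvd_one ?_
    rw [← hcd]
    exact dvd_add (h.mul_right _) ((dvd_pow_self _ (by omega)).mul_left _)
  · have : (-(c * a)) ^ 2 - -(c * a) + 1 - Q.f (c • V) = c ^ 2 * (nm a b - Q.f V) +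
        (p : ℤ) ^ E * (d * (c * a + 1 + c * b)) := by
      rw [Q.f_smul]
      unfold nm
      linear_combination (c * a + 1 + c * b) * (-1) * hcd
    rw [this]
    exact dvd_add (e1.mul_left _) (dvd_mul_right _ _)

theorem locsol {v1 : M} {k : ℤ} {p : ℕ} (hp : p.Prime) {K E : ℕ} (hK : ¬ (p : ℤ) ^ K ∣ 2 * k)
    (hE : 2 ≤ E) (hgood : p % 3 ≠ 1 → ∃ v, Good p (Q.f v)) :
    ∃ (u : M) (r : ℤ), (p : ℤ) ^ E ∣ r ^ 2 - r + 1 - Q.f u ∧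
      ¬ (p : ℤ) ^ (K + 1) ∣ Q.b v1 u + k * (2 * r - 1) := by
  have hpp := Nat.prime_iff_prime_int.1 hp
  have hf0 : Q.f 0 = 0 := by
    have := Q.f_smul 0 0
    simpa using this
  obtain ⟨V, a, b, e1, e2, e3⟩ : ∃ V : M, ∃ a b : ℤ, (p : ℤ) ^ E ∣ nm a b - Q.f V ∧
      ¬ (p : ℤ) ∣ b ∧ ¬ (p : ℤ) ^ 2 ∣ 2 * a + b := by
    by_cases h3 : p % 3 = 1
    · refine ⟨0, ?_⟩
      rw [hf0]
      exact loc_split hp h3 E
    · obtain ⟨V, hV⟩ := hgood h3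
      exact ⟨V, loc_inert hp h3 hV E hE⟩
  obtain ⟨c, d, hcd⟩ : IsCoprime b ((p : ℤ) ^ E) :=
    (((Prime.coprime_iff_not_dvd hpp).2 e2).symm).pow_right
  have hpc : ¬ (p : ℤ) ∣ c := by
    intro h
    apply hpp.not_isUnit
    refine isUnit_of_dvd_one ?_
    rw [← hcd]
    exact dvd_add (h.mul_right _) ((dvd_pow_self _ (by omega)).mul_left _)
  have hval : (p : ℤ) ^ E ∣ nm (c * a) 1 - c ^ 2 * Q.f V := by
    have : nm (c * a) 1 - c ^ 2 * Q.f V = c ^ 2 * (nm a b - Q.f V) +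
        (p : ℤ) ^ E * (d * (c * a + 1 + c * b)) := by
      unfold nm
      linear_combination (c * a + 1 + c * b) * (-1) * hcd
    rw [this]
    exact dvd_add (e1.mul_left _) (dvd_mul_right _ _)
  have hw : ¬ (p : ℤ) ^ 2 ∣ 2 * (c * a) + 1 := by
    intro h
    apply e3
    have h1 : (p : ℤ) ^ 2 ∣ (2 * a + b) * c := by
      have : (2 * a + b) * c = (2 * (c * a) + 1) - (p : ℤ) ^ E * d := by
        linear_combination hcd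
      rw [this]
      exact dvd_sub h ((pow_dvd_pow _ (by omega)).mul_right _)
    exact hpp.pow_dvd_of_dvd_mul_right 2 hpc h1
  have hmain := not_dvd_mul hp hK hw
  by_contra hcon
  push Not at hcon
  have c1 := hcon (c • V) (-(c * a)) (by
    rw [Q.f_smul]
    have : (-(c * a)) ^ 2 - -(c * a) + 1 - c ^ 2 * Q.f V =
        nm (c * a) 1 - c ^ 2 * Q.f V := by unfold nm; ring
    rw [this]
    exact hval)
  have c2 := hcon (c • V) (1 + c * a) (by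
    rw [Q.f_smul]
    have : (1 + c * a) ^ 2 - (1 + c * a) + 1 - c ^ 2 * Q.f V =
        nm (c * a) 1 - c ^ 2 * Q.f V := by unfold nm; ring
    rw [this]
    exact hval)
  apply hmain
  have := dvd_sub c2 c1
  have e : Q.b v1 (c • V) + k * (2 * (1 + c * a) - 1) -
      (Q.b v1 (c • V) + k * (2 * -(c * a) - 1)) = 2 * k * (2 * (c * a) + 1) := by ring
  rwa [e] at this

/-- two local solutions whose numbers `n` have different symbols -/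
def Pair (v1 : M) (k : ℤ) (q K E : ℕ) : Prop :=
  ∃ (u u' : M) (r r' ζ : ℤ), (q : ℤ) ^ E ∣ r ^ 2 - r + 1 - Q.f u ∧
    (q : ℤ) ^ E ∣ r' ^ 2 - r' + 1 - Q.f u' ∧ ¬ (q : ℤ) ^ (K + 1) ∣ Q.b v1 u + k * (2 * r - 1) ∧
    (q : ℤ) ^ E ∣ (Q.b v1 u' + k * (2 * r' - 1)) - ζ * (Q.b v1 u + k * (2 * r - 1)) ∧
    (q = 2 → ζ % 8 = 5) ∧ (q ≠ 2 → jacobiSym ζ q = -1)

theorem pair_sign {v1 : M} {k : ℤ} {q : ℕ} (hq : q.Prime) (h4 : q % 4 = 3) {K E : ℕ}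
    (hK : ¬ (q : ℤ) ^ K ∣ 2 * k) (hE : 2 ≤ E) (hgood : q % 3 ≠ 1 → ∃ v, Good q (Q.f v)) :
    Pair Q v1 k q K E := by
  obtain ⟨u, r, h1, h2⟩ := locsol Q (v1 := v1) hq hK hE hgood
  refine ⟨u, (-1 : ℤ) • u, r, 1 - r, -1, h1, ?_, h2, ?_, fun h => by omega, fun _ => ?_⟩
  · rw [Q.f_smul]
    have : (1 - r) ^ 2 - (1 - r) + 1 - (-1) ^ 2 * Q.f u = r ^ 2 - r + 1 - Q.f u := by ring
    rw [this]
    exact h1
  · rw [Q.b_smul']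
    exact ⟨0, by ring⟩
  · rw [jacobiSym.at_neg_one (Nat.odd_iff.2 (by omega)), ZMod.χ₄_nat_three_mod_four h4]

theorem exists_val {k : ℤ} (hk : k ≠ 0) {q : ℕ} (hq : q.Prime) {K : ℕ}
    (hK : ¬ (q : ℤ) ^ K ∣ 2 * k) : ∃ (κ : ℕ) (k' : ℤ), ¬ (q : ℤ) ∣ k' ∧ k = q ^ κ * k' ∧
      κ + 1 ≤ K := by
  have hf : FiniteMultiplicity (q : ℤ) k := by
    rw [Int.finiteMultiplicity_iff]
    refine ⟨?_, hk⟩
    rw [Int.natAbs_natCast]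
    exact hq.one_lt.ne'
  obtain ⟨c, hc, hc2⟩ := hf.exists_eq_pow_mul_and_not_dvd
  refine ⟨_, c, hc2, hc, ?_⟩
  by_contra hcon
  apply hK
  rw [hc]
  exact ((pow_dvd_pow _ (by omega)).mul_right _).mul_left _

theorem pair_two (hval : S_VAL) (hptwo : S_PTWO) {v1 y : M} {k : ℤ} (hk : k ≠ 0)
    (hid : ∀ u, 4 * k ^ 2 * Q.f y * Q.f u = Q.f y * Q.b v1 u ^ 2 + k ^ 2 * Q.b y u ^ 2)
    {q : ℕ} (hq : q.Prime) (h3 : q % 3 = 2) {V : M} (hV : Good q (Q.f V)) {j : ℕ} {g : ℤ}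
    (hg : ¬ (q : ℤ) ∣ g) (hfy : Q.f y = q ^ (2 * j + 1) * g) {K E : ℕ}
    (hK : ¬ (q : ℤ) ^ K ∣ 2 * k) (hE : K + 3 ≤ E) : Pair Q v1 k q K E := by
  have hpp := Nat.prime_iff_prime_int.1 hq
  obtain ⟨κ, k', hk', hkk, hκ⟩ := exists_val hk hq hK
  obtain ⟨c, r, hc, hF⟩ := locbase Q hq (by omega) hV (E := E) (by omega)
  have hfV : ¬ (q : ℤ) ∣ Q.f V := hV.2 (by rintro rfl; norm_num at h3)
  have hfu : ¬ (q : ℤ) ∣ Q.f (c • V) := by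
    rw [Q.f_smul]
    intro h
    rcases hpp.dvd_or_dvd h with h | h
    · exact hc (hpp.dvd_of_dvd_pow h)
    · exact hfV h
  obtain ⟨d1, d2⟩ := hval q hq κ j k' g (Q.f y) k (Q.b y (c • V)) (Q.b v1 (c • V)) (Q.f (c • V))
    hk' hg hfu hkk hfy (hid _)
  have e1 : (Q.b v1 (c • V) + k * (2 * r - 1)) * (-Q.b v1 (c • V) + k * (2 * r - 1)) + 3 * k ^ 2 =
      4 * k ^ 2 * (r ^ 2 - r + 1 - Q.f (c • V)) +
        (4 * k ^ 2 * Q.f (c • V) - Q.b v1 (c • V) ^ 2) := by ring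
  have hk2 : ∀ m : ℕ, m ≤ 2 * κ + E → (q : ℤ) ^ m ∣
      4 * k ^ 2 * (r ^ 2 - r + 1 - Q.f (c • V)) := by
    intro m hm
    obtain ⟨X, hX⟩ := hF
    refine (pow_dvd_pow _ hm).trans ⟨4 * k' ^ 2 * X, ?_⟩
    rw [hX, hkk]
    ring
  obtain ⟨h5, ζ, h6, h7, h8⟩ := hptwo q hq h3 κ E k' k (Q.b v1 (c • V)) (2 * r - 1) (by omega) hk'
    hkk (fun _ => by omega) (by
      rw [e1]
      exact dvd_add (hk2 _ (by omega)) d1) (fun h2 => by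
      rw [e1]
      exact dvd_add (hk2 _ (by omega)) (d2 h2))
  refine ⟨c • V, (-1 : ℤ) • (c • V), r, r, ζ, hF, ?_, fun h => h5 ?_, ?_, h7, h8⟩
  · rw [Q.f_smul (-1)]
    have : r ^ 2 - r + 1 - (-1) ^ 2 * Q.f (c • V) = r ^ 2 - r + 1 - Q.f (c • V) := by ring
    rw [this]
    exact hF
  · exact (pow_dvd_pow _ (by omega)).trans h
  · rw [Q.b_smul' _ _ (c • V)]
    have : -1 * Q.b v1 (c • V) + k * (2 * r - 1) - ζ * (Q.b v1 (c • V) + k * (2 * r - 1)) =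
        -Q.b v1 (c • V) + k * (2 * r - 1) - ζ * (Q.b v1 (c • V) + k * (2 * r - 1)) := by ring
    rw [this]
    exact h6

theorem half {q : ℕ} (hq2 : q % 2 = 1) (E : ℕ) (W : ℤ) : ∃ r : ℤ, (q : ℤ) ^ E ∣ 2 * r - 1 - W := by
  have hodd : ((q : ℤ) ^ E) % 2 = 1 := by
    have : Odd ((q : ℤ) ^ E) := Odd.pow (by
      rw [Int.odd_iff]
      omega)
    exact Int.odd_iff.1 this
  rcases Int.emod_two_eq_zero_or_one W with h | h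
  · refine ⟨(W + (q : ℤ) ^ E + 1) / 2, 1, ?_⟩
    omega
  · refine ⟨(W + 1) / 2, 0, ?_⟩
    omega

theorem pair_one (hval : S_VAL) (hpone : S_PONE) {v1 y : M} {k : ℤ} (hk : k ≠ 0)
    (hid : ∀ u, 4 * k ^ 2 * Q.f y * Q.f u = Q.f y * Q.b v1 u ^ 2 + k ^ 2 * Q.b y u ^ 2)
    {q : ℕ} (hq : q.Prime) (hq2 : q ≠ 2) (hq3 : q ≠ 3) {V : M} (hV : ¬ (q : ℤ) ∣ Q.f V) {j : ℕ}
    {g : ℤ} (hg : ¬ (q : ℤ) ∣ g) (hfy : Q.f y = q ^ (2 * j + 1) * g) {K E : ℕ}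
    (hK : ¬ (q : ℤ) ^ K ∣ 2 * k) (hE : K + 3 ≤ E) : Pair Q v1 k q K E := by
  have hpp := Nat.prime_iff_prime_int.1 hq
  have hqodd : q % 2 = 1 := (hq.eq_two_or_odd).resolve_left hq2
  have hq2' : ¬ (q : ℤ) ∣ 2 := fun h => hq2
    ((Nat.prime_dvd_prime_iff_eq hq Nat.prime_two).1 (by exact_mod_cast h))
  obtain ⟨κ, k', hk', hkk, hκ⟩ := exists_val hk hq hK
  obtain ⟨d1, -⟩ := hval q hq κ j k' g (Q.f y) k (Q.b y V) (Q.b v1 V) (Q.f V)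
    hk' hg hV hkk hfy (hid _)
  have hq0 : ((q : ℤ) ^ κ) ^ 2 ≠ 0 := pow_ne_zero _ (pow_ne_zero _ (by exact_mod_cast hq.ne_zero))
  obtain ⟨β, hβ⟩ : (q : ℤ) ^ κ ∣ Q.b v1 V := by
    have h1 : ((q : ℤ) ^ κ) ^ 2 ∣ Q.b v1 V ^ 2 := by
      have h2 : ((q : ℤ) ^ κ) ^ 2 ∣ 4 * k ^ 2 * Q.f V - Q.b v1 V ^ 2 := by
        rw [← pow_mul]
        exact (pow_dvd_pow _ (by omega)).trans d1
      have h3 : ((q : ℤ) ^ κ) ^ 2 ∣ 4 * k ^ 2 * Q.f V := ⟨4 * k' ^ 2 * Q.f V, by rw [hkk]; ring⟩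
      have := dvd_sub h3 h2
      have e : 4 * k ^ 2 * Q.f V - (4 * k ^ 2 * Q.f V - Q.b v1 V ^ 2) = Q.b v1 V ^ 2 := by ring
      rwa [e] at this
    exact (Int.pow_dvd_pow_iff two_ne_zero).1 h1
  have hβ2 : (q : ℤ) ∣ β ^ 2 - 4 * Q.f V * k' ^ 2 := by
    rw [hβ, hkk] at d1
    have e : 4 * ((q : ℤ) ^ κ * k') ^ 2 * Q.f V - ((q : ℤ) ^ κ * β) ^ 2 =
        ((q : ℤ) ^ κ) ^ 2 * -(β ^ 2 - 4 * Q.f V * k' ^ 2) := by ring
    have e2 : (q : ℤ) ^ (2 * κ + 1) = ((q : ℤ) ^ κ) ^ 2 * q := by ring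
    rw [e, e2] at d1
    exact (dvd_neg).1 ((mul_dvd_mul_iff_left hq0).1 d1)
  obtain ⟨x, W, x', W', ζ, g1, g2, g3, g4, g5⟩ := hpone q hq hq2 hq3 E k' β (Q.f V) (by omega) hk' hV
    hβ2
  obtain ⟨r, hr⟩ := half hqodd E W
  obtain ⟨r', hr'⟩ := half hqodd E W'
  have hF : ∀ x W r : ℤ, (q : ℤ) ^ E ∣ 4 * Q.f V * x ^ 2 - W ^ 2 - 3 → (q : ℤ) ^ E ∣ 2 * r - 1 - W →
      (q : ℤ) ^ E ∣ r ^ 2 - r + 1 - Q.f (x • V) := by
    intro x W r h1 h2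
    have h3 : (q : ℤ) ^ E ∣ 4 * (r ^ 2 - r + 1 - Q.f (x • V)) := by
      rw [Q.f_smul]
      obtain ⟨a, ha⟩ := h1
      obtain ⟨b, hb⟩ := h2
      refine ⟨b * (2 * W + (q : ℤ) ^ E * b) - a, ?_⟩
      linear_combination (2 * r - 1 + W + q ^ E * b) * hb - ha
    have h4 : ¬ (q : ℤ) ∣ 4 := by
      intro h
      have : (q : ℤ) ∣ 2 ^ 2 := by norm_num; exact h
      exact hq2' (hpp.dvd_of_dvd_pow this)
    exact hpp.pow_dvd_of_dvd_mul_left _ h4 h3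
  have hn : ∀ x W r : ℤ, (q : ℤ) ^ E ∣ 2 * r - 1 - W → ∃ e : ℤ,
      Q.b v1 (x • V) + k * (2 * r - 1) = (q : ℤ) ^ κ * ((β * x + k' * W) + (q : ℤ) ^ E * e) := by
    intro x W r h
    obtain ⟨b, hb⟩ := h
    refine ⟨k' * b, ?_⟩
    rw [Q.b_smul', hβ, hkk]
    linear_combination (q : ℤ) ^ κ * k' * hb
  obtain ⟨e, he⟩ := hn x W r hr
  obtain ⟨e', he'⟩ := hn x' W' r' hr'
  refine ⟨x • V, x' • V, r, r', ζ, hF x W r g1 hr, hF x' W' r' g2 hr', fun h => g3 ?_, ?_,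
    fun h => absurd h hq2, fun _ => g5⟩
  · rw [he] at h
    have h1 : (q : ℤ) ^ κ * q ∣ (q : ℤ) ^ κ * ((β * x + k' * W) + (q : ℤ) ^ E * e) := by
      rw [← pow_succ]
      exact (pow_dvd_pow _ (by omega)).trans h
    have h2 := (mul_dvd_mul_iff_left (pow_ne_zero κ (by exact_mod_cast hq.ne_zero))).1 h1
    have h3 : (q : ℤ) ∣ (q : ℤ) ^ E * e := (dvd_pow_self _ (by omega)).mul_right _
    have := dvd_sub h2 h3
    have e1 : β * x + k' * W + (q : ℤ) ^ E * e - (q : ℤ) ^ E * e = β * x + k' * W := by ring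
    rwa [e1] at this
  · rw [he, he']
    obtain ⟨b, hb⟩ := g4
    refine ⟨(q : ℤ) ^ κ * (b + e' - ζ * e), ?_⟩
    linear_combination (q : ℤ) ^ κ * hb

end Pool.Agent.K9h95.RE
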